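import Pool.Agent.MldGap.Level
import Pool.Agent.Mld.Gr
import Pool.Agent.Mld.Mk

/-!
# The gap theorem for quotient singularities
-/

namespace MldGap

open Finset Matrix Pool.Agent.Mld

theorem logAge_eq {n : ℕ} (g : GL (Fin n) ℂ) : logAge g = ((eig g).map th).sum := rfl

theorem th_eq_fr (z : ℂ) : th z = if fr z = 0 then 1 else fr z := rfl

theorem th_pos (z : ℂ) : 0 < th z := by
  rw [th_eq_fr]
  split_ifs with h
  · exact one_pos
  · exact lt_of_le_of_ne (Int.fract_nonneg _) (Ne.symm h)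

theorem th_le_one (z : ℂ) : th z ≤ 1 := by
  rw [th_eq_fr]
  split_ifs with h
  · exact le_rfl
  · exact (Int.fract_lt_one _).le

theorem th_one : th 1 = 1 := by
  rw [th_eq_fr]
  simp [fr]

/-- `z = e^{2 π i θ}` for `|z| = 1` -/
theorem exp_th {z : ℂ} (hz : ‖z‖ = 1) :
    Complex.exp (((2 * Real.pi * th z : ℝ) : ℂ) * Complex.I) = z := by
  have h1 : Complex.exp ((Complex.arg z : ℂ) * Complex.I) = z := by
    have := Complex.norm_mul_exp_arg_mul_I z
    rw [hz] at this
    simpa using this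
  have hpi : (2 * Real.pi) ≠ 0 := Real.two_pi_pos.ne'
  obtain ⟨N, hN⟩ : ∃ N : ℤ, th z = Complex.arg z / (2 * Real.pi) + N := by
    unfold th
    split_ifs with h
    · refine ⟨1 - ⌊Complex.arg z / (2 * Real.pi)⌋, ?_⟩
      have h2 := Int.self_sub_floor (Complex.arg z / (2 * Real.pi))
      rw [h] at h2
      push_cast
      linarith
    · refine ⟨- ⌊Complex.arg z / (2 * Real.pi)⌋, ?_⟩
      have h2 := Int.self_sub_floor (Complex.arg z / (2 * Real.pi))
      push_cast
      linarith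
  rw [hN]
  have h3 : (((2 * Real.pi * (Complex.arg z / (2 * Real.pi) + N) : ℝ) : ℂ) * Complex.I) =
      (Complex.arg z : ℂ) * Complex.I + N * (2 * Real.pi * Complex.I) := by
    have h4 : 2 * Real.pi * (Complex.arg z / (2 * Real.pi) + N) =
        Complex.arg z + N * (2 * Real.pi) := by
      field_simp
    rw [h4]
    push_cast
    ring
  rw [h3, Complex.exp_add, h1, Complex.exp_int_mul_two_pi_mul_I, mul_one]

/-- `θ(e^{2 π i t}) ≤ t` for `t > 0` -/
theorem th_exp_le {t : ℝ} (ht : 0 < t) :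
    th (Complex.exp (((2 * Real.pi * t : ℝ) : ℂ) * Complex.I)) ≤ t := by
  rw [th_eq_fr, Mk.fr_exp]
  have h1 := Int.self_sub_floor t
  have h0 : 0 ≤ ⌊t⌋ := Int.floor_nonneg.2 ht.le
  split_ifs with h
  · rw [h] at h1
    have h2 : (0 : ℝ) < ⌊t⌋ := by linarith
    have h3 : (0 : ℤ) < ⌊t⌋ := by exact_mod_cast h2
    have h4 : (1 : ℝ) ≤ ⌊t⌋ := by exact_mod_cast h3
    linarith
  · have h2 : (0 : ℝ) ≤ ⌊t⌋ := by exact_mod_cast h0
    linarith

theorem eig_one' (n : ℕ) : eig (1 : GL (Fin n) ℂ) = Multiset.replicate n 1 := by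
  unfold eig
  rw [Units.val_one, Matrix.charpoly_one]
  have : ((Polynomial.X - 1 : Polynomial ℂ)) = Polynomial.X - Polynomial.C 1 := by simp
  rw [this, Fintype.card_fin, Polynomial.roots_pow, Polynomial.roots_X_sub_C,
    Multiset.nsmul_singleton]

/-- the eigenvalues of an element of finite order have absolute value one -/
theorem norm_eig {n : ℕ} {g : GL (Fin n) ℂ} {m : ℕ} (hm : 0 < m) (hg : g ^ m = 1) {z : ℂ}
    (hz : z ∈ eig g) : ‖z‖ = 1 := by
  have h1 : z ^ m ∈ eig (g ^ m) := by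
    rw [eig_pow]
    exact Multiset.mem_map_of_mem _ hz
  rw [hg, eig_one'] at h1
  have h2 := Multiset.eq_of_mem_replicate h1
  exact Complex.norm_eq_one_of_pow_eq_one h2 hm.ne'

theorem logAge_nonneg {n : ℕ} (g : GL (Fin n) ℂ) : 0 ≤ logAge g := by
  rw [logAge_eq]
  refine Multiset.sum_nonneg fun a ha => ?_
  obtain ⟨z, _, rfl⟩ := Multiset.mem_map.1 ha
  exact (th_pos z).le

theorem quot_bddBelow {n : ℕ} (G : Subgroup (GL (Fin n) ℂ)) :
    BddBelow {a : ℝ | ∃ g ∈ G, logAge g = a} := by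
  refine ⟨0, ?_⟩
  rintro _ ⟨g, _, rfl⟩
  exact logAge_nonneg g

theorem quot_nonempty {n : ℕ} (G : Subgroup (GL (Fin n) ℂ)) :
    {a : ℝ | ∃ g ∈ G, logAge g = a}.Nonempty := ⟨_, 1, G.one_mem, rfl⟩

theorem quot_bound {n l : ℕ} (hl : 1 ≤ l) (G : Subgroup (GL (Fin n) ℂ)) (hfin : Finite G)
    (hlt : mldQuot G < l) : mldQuot G ≤ levelBound n l 1 := by
  classical
  obtain ⟨_, ⟨g, hgG, rfl⟩, hg⟩ := exists_lt_of_csInf_lt (quot_nonempty G)
    (show mldQuot G < (mldQuot G + l) / 2 by linarith)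
  -- finite order
  obtain ⟨m, hm, hgm⟩ : ∃ m, 0 < m ∧ g ^ m = 1 := by
    have h1 := isOfFinOrder_of_finite (⟨g, hgG⟩ : G)
    obtain ⟨m, hm, h2⟩ := h1.exists_pow_eq_one
    refine ⟨m, hm, ?_⟩
    have := congrArg Subtype.val h2
    simpa using this
  -- enumerate the eigenvalues
  obtain ⟨L, hL⟩ := Quot.exists_rep (eig g)
  have hLn : L.length = n := by
    have := card_eig g
    rw [← hL] at this
    exact this
  subst hLn
  set f : Fin L.length → ℂ := fun i => L.get i with hf
  have hfe : eig g = (univ : Finset (Fin L.length)).val.map f := by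
    rw [← hL, Fin.univ_val_map]
    simp only [hf, List.ofFn_get]
    rfl
  have hnorm : ∀ i, ‖f i‖ = 1 := fun i => by
    refine norm_eig hm hgm ?_
    rw [hfe]
    exact Multiset.mem_map_of_mem _ (mem_univ i)
  have hage : ∀ k : ℕ, logAge (g ^ k) = ∑ i, th (f i ^ k) := by
    intro k
    rw [logAge_eq, eig_pow, hfe, Multiset.map_map, Multiset.map_map]
    rfl
  have hage1 : logAge g = ∑ i, th (f i) := by
    have := hage 1
    simpa using this
  have hcore := core (ι := Fin L.length) (fun i => th (f i)) (fun i => th_pos _)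
    (fun i => th_le_one _) (fun _ => (1 : ℤ)) (p := l) (q := 1) (by omega) one_pos
    (fun _ => by norm_num) (fun _ => by norm_num)
    (by
      have : logAge g < l := by linarith
      rw [hage1] at this
      simpa using this)
    (by
      intro k hk y hy hsum
      have hk' : (2 : ℝ) ≤ k := by exact_mod_cast hk
      have h1 : mldQuot G ≤ logAge (g ^ k) :=
        csInf_le (quot_bddBelow G) ⟨g ^ k, G.pow_mem hgG k, rfl⟩
      have h2 : logAge (g ^ k) ≤ ∑ i, ((k : ℝ) * th (f i) - y i) := by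
        rw [hage]
        refine sum_le_sum fun i _ => ?_
        have h3 : f i ^ k =
            Complex.exp (((2 * Real.pi * ((k : ℝ) * th (f i) - y i) : ℝ) : ℂ) * Complex.I) := by
          conv_lhs => rw [← exp_th (hnorm i)]
          rw [← Complex.exp_nat_mul]
          have h4 : (((2 * Real.pi * ((k : ℝ) * th (f i) - y i) : ℝ) : ℂ) * Complex.I) =
              (k : ℂ) * (((2 * Real.pi * th (f i) : ℝ) : ℂ) * Complex.I) +
                (-(y i) : ℤ) * (2 * Real.pi * Complex.I) := by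
            push_cast
            ring
          rw [h4, Complex.exp_add, Complex.exp_int_mul_two_pi_mul_I, mul_one]
        rw [h3]
        refine th_exp_le ?_
        have := hy i
        linarith
      have h3 : ∑ i, ((k : ℝ) * th (f i) - y i) = k * logAge g - ((k : ℝ) - 1) * l := by
        rw [sum_sub_distrib, ← mul_sum, ← hage1]
        have h4 : ((∑ i, (1 : ℤ) * y i : ℤ) : ℝ) = ((((k : ℤ) - 1) * l : ℤ) : ℝ) := by rw [hsum]
        push_cast at h4
        simp only [one_mul] at h4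
        rw [h4]
      rw [h3] at h2
      nlinarith)
  have h5 : mldQuot G ≤ logAge g := csInf_le (quot_bddBelow G) ⟨g, hgG, rfl⟩
  refine h5.trans ?_
  rw [hage1]
  unfold levelBound
  simp only [Int.cast_one, one_mul, Nat.cast_one, div_one, Fintype.card_fin] at hcore ⊢
  exact hcore

/-- roots of unity of order dividing `s` -/
theorem le_th_of_pow {z : ℂ} {s : ℕ} (hs : 0 < s) (hz : z ^ s = 1) : 1 / (s : ℝ) ≤ th z := by
  have hs' : (0 : ℝ) < s := by exact_mod_cast hs
  have hnorm : ‖z‖ = 1 := Complex.norm_eq_one_of_pow_eq_one hz hs.ne'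
  have h1 := exp_th hnorm
  rw [← h1, ← Complex.exp_nat_mul, Complex.exp_eq_one_iff] at hz
  obtain ⟨N, hN⟩ := hz
  have hpi : (2 * Real.pi * Complex.I : ℂ) ≠ 0 := Complex.two_pi_I_ne_zero
  have h2 : ((s * th z : ℝ) : ℂ) = ((N : ℝ) : ℂ) := by
    have h3 : ((s * th z : ℝ) : ℂ) * (2 * Real.pi * Complex.I) =
        ((N : ℝ) : ℂ) * (2 * Real.pi * Complex.I) := by
      push_cast at hN ⊢
      rw [← hN]
      ring
    exact mul_right_cancel₀ hpi h3
  have h4 : (s : ℝ) * th z = N := by exact_mod_cast h2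
  have h5 : (0 : ℝ) < N := by
    rw [← h4]
    exact mul_pos hs' (th_pos z)
  have h6 : (0 : ℤ) < N := by exact_mod_cast h5
  have h7 : (1 : ℝ) ≤ N := by exact_mod_cast h6
  rw [div_le_iff₀ hs']
  linarith

theorem den_dvd (l n i : ℕ) (hi : i < n) : den l i ∣ ∏ j ∈ range n, den l j :=
  dvd_prod_of_mem _ (mem_range.2 hi)

theorem quot_attained (n l : ℕ) (hl : 1 ≤ l) (hln : l ≤ n) :
    ∃ G : Subgroup (GL (Fin n) ℂ), Finite G ∧
      mldQuot G = (l : ℝ) - 1 / ((sylvester (n - l + 1) : ℝ) - 1) := by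
  classical
  set M := ∏ j ∈ range n, den l j with hM
  have hM0 : 0 < M := prod_pos fun j _ => den_pos l j
  have : NeZero M := ⟨hM0.ne'⟩
  obtain ⟨r, hMd⟩ : ∃ r : Fin n → ℕ, ∀ i : Fin n, r i * den l i = M :=
    ⟨fun i => M / den l i, fun i => Nat.div_mul_cancel (den_dvd l n i i.2)⟩
  let f : Fin n → ZMod M := fun i => (r i : ZMod M)
  set g := Mk.dg f with hg
  have hgM : g ^ M = 1 := by
    rw [hg, Mk.dg_pow, Mk.dg_eq_one_iff]
    intro i
    simp
  have hpow : ∀ i, (ZMod.stdAddChar (f i) : ℂ) ^ den l i = 1 := by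
    intro i
    rw [← AddChar.map_nsmul_eq_pow]
    have : den l i • f i = 0 := by
      simp only [f, nsmul_eq_mul]
      rw [← Nat.cast_mul, mul_comm, hMd i]
      simp
    rw [this, AddChar.map_zero_eq_one]
  have hth : ∀ i, th (ZMod.stdAddChar (f i) : ℂ) = 1 / (den l i : ℝ) := by
    intro i
    apply le_antisymm
    · have hd : (0 : ℝ) < den l i := by exact_mod_cast den_pos l i
      have hM' : (0 : ℝ) < M := by exact_mod_cast hM0
      have h1 : (ZMod.stdAddChar (f i) : ℂ) =
          Complex.exp (((2 * Real.pi * (1 / (den l i : ℝ)) : ℝ) : ℂ) * Complex.I) := by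
        have h2 := ZMod.stdAddChar_coe (N := M) ((r i : ℕ) : ℤ)
        have h3 : (((r i : ℕ) : ℤ) : ZMod M) = f i := by
          simp [f]
        rw [h3] at h2
        rw [h2]
        congr 1
        have h4 : (r i : ℂ) * (den l i : ℂ) = (M : ℂ) := by
          exact_mod_cast hMd i
        have h5 : (den l i : ℂ) ≠ 0 := by exact_mod_cast (den_pos l i).ne'
        have h6 : (M : ℂ) ≠ 0 := by exact_mod_cast hM0.ne'
        push_cast
        field_simp
        rw [← h4]
      rw [h1]
      exact th_exp_le (by positivity)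
    · exact le_th_of_pow (den_pos l i) (hpow i)
  have heig : eig g = (univ : Finset (Fin n)).val.map fun i => (ZMod.stdAddChar (f i) : ℂ) :=
    Mk.eig_dg f
  have hage : logAge g = ∑ i : Fin n, 1 / (den l i : ℝ) := by
    rw [logAge_eq, heig, Multiset.map_map]
    show ∑ i : Fin n, th (ZMod.stdAddChar (f i) : ℂ) = _
    exact sum_congr rfl fun i _ => hth i
  have hfo : IsOfFinOrder g := isOfFinOrder_iff_pow_eq_one.2 ⟨M, hM0, hgM⟩
  refine ⟨Subgroup.zpowers g, ?_, ?_⟩
  · exact hfo.finite_zpowers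
  · rw [← sum_inv_den n l hl hln, ← hage]
    apply le_antisymm
    · exact csInf_le (quot_bddBelow _) ⟨g, Subgroup.mem_zpowers g, rfl⟩
    · refine le_csInf (quot_nonempty _) ?_
      rintro _ ⟨h, hh, rfl⟩
      obtain ⟨k, rfl⟩ := (hfo.mem_powers_iff_mem_zpowers).2 hh
      simp only
      rw [hage, logAge_eq, eig_pow, heig, Multiset.map_map, Multiset.map_map]
      show ∑ i : Fin n, 1 / (den l i : ℝ) ≤ ∑ i : Fin n, th ((ZMod.stdAddChar (f i) : ℂ) ^ k)
      refine sum_le_sum fun i _ => le_th_of_pow (den_pos l i) ?_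
      rw [← pow_mul, mul_comm, pow_mul, hpow, one_pow]

end MldGap
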