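import Pool.Agent.MldGap.Quot
import Pool.Agent.Lib_helper15.MLD.Family

/-!
# Isolated cyclic quotient singularities close to the bound
-/

namespace MldGap

open Finset Matrix Pool.Agent.Mld Pool.Agent.Lib_helper15.MLD

theorem syl_eq_sylvester (k : ℕ) : syl k = sylvester k := by
  induction k with
  | zero => rfl
  | succ k ih =>
    have h := two_le_sylvester k
    simp only [syl, sylvester, ih]
    obtain ⟨t, ht⟩ : ∃ t, sylvester k = t + 1 := ⟨sylvester k - 1, by omega⟩
    rw [ht]
    have : (t + 1) ^ 2 - (t + 1) = (t + 1) * (t + 1 - 1) := by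
      rw [sq, Nat.mul_sub, mul_one]
    rw [this]

theorem fam_exists (N : ℕ) :
    ∃ G : Subgroup (GL (Fin (N + 2)) ℂ), Finite G ∧ ActsFreely G ∧
      mldQuot G = 1 - 4 / ((sylvester (N + 1) : ℝ) ^ 2 + 3) := by
  classical
  set r := rr N with hr
  have hmm := mm_pos N
  have hr3 : 3 ≤ r := by
    rw [hr, rr]
    nlinarith
  have : NeZero r := ⟨by omega⟩
  let f : Fin (N + 2) → ZMod r := fun i => (wt N i : ZMod r)
  set g := Mk.dg f with hg
  have hr0 : (0 : ℝ) < r := by exact_mod_cast (show 0 < r by omega)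
  -- nonvanishing
  have hne : ∀ (k : ℕ) (i : Fin (N + 2)), ¬ r ∣ k → ¬ r ∣ k * wt N i := by
    intro k i hk h
    exact hk ((wt_coprime N i).symm.dvd_of_dvd_mul_right h)
  have hval : ∀ (k : ℕ) (i : Fin (N + 2)), ((k : ZMod r) * f i).val = k * wt N i % r := by
    intro k i
    have : (k : ZMod r) * f i = ((k * wt N i : ℕ) : ZMod r) := by simp [f]
    rw [this, ZMod.val_natCast]
  have hth : ∀ (k : ℕ) (i : Fin (N + 2)), ¬ r ∣ k →
      th (ZMod.stdAddChar ((k : ZMod r) * f i) : ℂ) = ((k * wt N i % r : ℕ) : ℝ) / r := by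
    intro k i hk
    rw [th_eq_fr, Mk.fr_std, hval, if_neg]
    have h1 := hne k i hk
    have h2 : k * wt N i % r ≠ 0 := fun h => h1 (Nat.dvd_of_mod_eq_zero h)
    have h3 : (0 : ℝ) < ((k * wt N i % r : ℕ) : ℝ) := by
      exact_mod_cast Nat.pos_of_ne_zero h2
    have : (0 : ℝ) < ((k * wt N i % r : ℕ) : ℝ) / r := by positivity
    exact this.ne'
  have hgk : ∀ k : ℕ, g ^ k = Mk.dg fun i => (k : ZMod r) * f i := fun k => by
    rw [hg, Mk.dg_pow]
  have hage : ∀ k : ℕ, ¬ r ∣ k →
      logAge (g ^ k) = ((∑ i, k * wt N i % r : ℕ) : ℝ) / r := by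
    intro k hk
    rw [hgk, logAge_eq, Mk.eig_dg, Multiset.map_map]
    show ∑ i : Fin (N + 2), th (ZMod.stdAddChar ((k : ZMod r) * f i) : ℂ) = _
    rw [sum_congr rfl fun i _ => hth k i hk, ← sum_div]
    push_cast
    rfl
  have hgr : g ^ r = 1 := by
    rw [hgk, Mk.dg_eq_one_iff]
    intro i
    simp
  have hfo : IsOfFinOrder g := isOfFinOrder_iff_pow_eq_one.2 ⟨r, by omega, hgr⟩
  have hmod : ∀ k : ℕ, g ^ k = g ^ (k % r) := by
    intro k
    conv_lhs => rw [← Nat.div_add_mod k r]
    rw [pow_add, pow_mul, hgr, one_pow, one_mul]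
  have h1r : ¬ r ∣ 1 := fun h => by
    have := Nat.le_of_dvd one_pos h
    omega
  have hage1 : logAge g = ((r : ℝ) - 1) / r := by
    have h := hage 1 h1r
    rw [pow_one] at h
    rw [h]
    congr 1
    have h2 : ∑ i, 1 * wt N i % r = r - 1 := by
      have h3 : ∑ i : Fin (N + 2), wt N i + 1 = r := sum_wt N
      have h4 : ∀ i : Fin (N + 2), 1 * wt N i % r = wt N i := by
        intro i
        rw [one_mul]
        apply Nat.mod_eq_of_lt
        have : wt N i ≤ ∑ j, wt N j := single_le_sum (fun _ _ => Nat.zero_le _) (mem_univ i)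
        omega
      rw [sum_congr rfl fun i _ => h4 i]
      exact Nat.eq_sub_of_add_eq h3
    rw [h2, Nat.cast_sub (by omega)]
    simp
  refine ⟨Subgroup.zpowers g, hfo.finite_zpowers, ?_, ?_⟩
  · intro h hh hh1 v hv
    obtain ⟨k, rfl⟩ := (hfo.mem_powers_iff_mem_zpowers).2 hh
    have hk : ¬ r ∣ k := by
      rintro ⟨t, rfl⟩
      apply hh1
      show g ^ (r * t) = 1
      rw [pow_mul, hgr, one_pow]
    have hv' : ((Mk.dg fun i => (k : ZMod r) * f i : GL (Fin (N + 2)) ℂ) :
        Matrix (Fin (N + 2)) (Fin (N + 2)) ℂ).mulVec v = v := by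
      rw [← hgk]
      exact hv
    rw [Mk.mulVec_dg] at hv'
    ext i
    have h1 := congrFun hv' i
    have h2 : (ZMod.stdAddChar ((k : ZMod r) * f i) : ℂ) ≠ 1 := by
      intro h3
      rw [← AddChar.map_zero_eq_one (ZMod.stdAddChar (N := r))] at h3
      have h4 := ZMod.injective_stdAddChar h3
      have h5 := hval k i
      rw [h4, ZMod.val_zero] at h5
      exact hne k i hk (Nat.dvd_of_mod_eq_zero h5.symm)
    have h3 : ((ZMod.stdAddChar ((k : ZMod r) * f i) : ℂ) - 1) * v i = 0 := by
      rw [sub_mul, h1, one_mul, sub_self]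
    rcases mul_eq_zero.1 h3 with h4 | h4
    · exact absurd (sub_eq_zero.1 h4) h2
    · simpa using h4
  · have hrhs : (1 : ℝ) - 4 / ((sylvester (N + 1) : ℝ) ^ 2 + 3) = ((r : ℝ) - 1) / r := by
      have h1 := rr_eq N
      rw [syl_eq_sylvester] at h1
      have h2 : (4 : ℝ) * r = (sylvester (N + 1) : ℝ) ^ 2 + 3 := by
        rw [hr]
        exact_mod_cast h1
      rw [← h2]
      field_simp
    rw [hrhs, ← hage1]
    apply le_antisymm
    · exact csInf_le (quot_bddBelow _) ⟨g, Subgroup.mem_zpowers g, rfl⟩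
    · refine le_csInf (quot_nonempty _) ?_
      rintro _ ⟨h, hh, rfl⟩
      obtain ⟨k, rfl⟩ := (hfo.mem_powers_iff_mem_zpowers).2 hh
      show logAge g ≤ logAge (g ^ k)
      rw [hage1]
      by_cases hk : r ∣ k
      · obtain ⟨t, rfl⟩ := hk
        rw [pow_mul, hgr, one_pow, logAge_eq, eig_one', Multiset.map_replicate,
          Multiset.sum_replicate, th_one, nsmul_eq_mul, mul_one]
        rw [div_le_iff₀ hr0]
        push_cast
        nlinarith [Nat.cast_nonneg (α := ℝ) N]
      · rw [hmod k]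
        have hlt : k % r < r := Nat.mod_lt _ (by omega)
        have hk0 : k % r ≠ 0 := fun h => hk (Nat.dvd_of_mod_eq_zero h)
        have hk' : ¬ r ∣ k % r := fun h => by
          have := Nat.le_of_dvd (Nat.pos_of_ne_zero hk0) h
          omega
        rcases Nat.lt_or_ge (k % r) 2 with h2 | h2
        · have h3 : k % r = 1 := by omega
          rw [h3, pow_one, hage1]
        · rw [hage _ hk']
          have h4 := key N (k % r) h2 hlt
          have h5 : r ≤ ∑ i, (k % r) * wt N i % r := by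
            have : rr N = r := rfl
            rw [this] at h4
            omega
          have h6 : (r : ℝ) ≤ ((∑ i, (k % r) * wt N i % r : ℕ) : ℝ) := by exact_mod_cast h5
          exact div_le_div_of_nonneg_right (by linarith) hr0.le

end MldGap
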