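import Mathlib

/-!
# MP_fa3f7f_ag: gaps between minimal log discrepancies, definitions

Toric log germs, their minimal log discrepancies, and minimal log discrepancies of quotient
singularities.
-/

namespace MldGap

open Matrix

noncomputable section

/-! ### toric germs -/

/-- the closed convex cone generated by a finite family of vectors of `ℝ^n` -/
def coneOf {n : ℕ} {ι : Type} [Fintype ι] (e : ι → (Fin n → ℝ)) : Set (Fin n → ℝ) :=
  {x | ∃ c : ι → ℝ, (∀ i, 0 ≤ c i) ∧ x = ∑ i, c i • e i}

/-- A toric log germ `(x ∈ X, B)` of dimension `n`, `X` the affine toric variety of a full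
dimensional strongly convex rational cone in `ℝ^n` with lattice `N`, `x` the torus fixed point,
`B = ∑ b i D i`, `0 ≤ b i ≤ 1`, a combination of the torus invariant prime divisors, such that
`K_X + B` is `ℝ`-Cartier. No simpliciality is assumed. -/
structure ToricGerm (n : ℕ) where
  /-- the lattice of one-parameter subgroups -/
  N : AddSubgroup (Fin n → ℝ)
  /-- it is discrete (it spans because the cone is full dimensional) -/
  discrete : DiscreteTopology N
  /-- the torus invariant prime divisors -/
  ι : Type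
  /-- there are finitely many -/
  fin : Fintype ι
  /-- the primitive lattice generators of the rays of the cone -/
  ray : ι → (Fin n → ℝ)
  /-- they are lattice points -/
  ray_mem : ∀ i, ray i ∈ N
  /-- they are primitive -/
  ray_primitive : ∀ i (t : ℝ), 0 < t → t • ray i ∈ N → 1 ≤ t
  /-- they span distinct extremal rays: no one of them lies in the cone of the others -/
  ray_extremal : ∀ i, ¬ ∃ c : ι → ℝ, (∀ j, 0 ≤ c j) ∧ c i = 0 ∧ ray i = ∑ j, c j • ray j
  /-- the cone is full dimensional -/
  full : (interior (coneOf ray)).Nonempty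
  /-- the cone is strongly convex -/
  pointed : ∃ u : (Fin n → ℝ) →ₗ[ℝ] ℝ, ∀ i, 0 < u (ray i)
  /-- the coefficients of the boundary `B` -/
  b : ι → ℝ
  /-- `b i ≥ 0` -/
  b_nonneg : ∀ i, 0 ≤ b i
  /-- `b i ≤ 1` -/
  b_le_one : ∀ i, b i ≤ 1
  /-- `-(K_X + B)` as a linear function: the log discrepancy function of `(X, B)` -/
  ψ : (Fin n → ℝ) →ₗ[ℝ] ℝ
  /-- the log discrepancy of `D i` is `1 - b i` -/
  ψ_ray : ∀ i, ψ (ray i) = 1 - b i

attribute [instance] ToricGerm.fin

/-- The minimal log discrepancy of a toric log germ at the torus fixed point: the infimum of the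
log discrepancies `ψ v` of the toric valuations `v` with centre the fixed point, i.e. of the
lattice points in the interior of the cone. -/
def ToricGerm.mld {n : ℕ} (T : ToricGerm n) : ℝ :=
  sInf {a : ℝ | ∃ v ∈ T.N, v ∈ interior (coneOf T.ray) ∧ T.ψ v = a}

/-- The coefficients of `B` are hyperstandard with respect to `(1/q)ℤ ∩ [0,1]`: of the form
`1 - (c/q)/m` with `0 ≤ c ≤ q` and `m ≥ 1`. For `q = 1` these are the standard coefficients
`1 - 1/m`, `m ∈ {1, 2, …, ∞}`. -/
def ToricGerm.Hyperstandard {n : ℕ} (T : ToricGerm n) (q : ℕ) : Prop :=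
  ∀ i, ∃ c m : ℕ, c ≤ q ∧ 0 < m ∧ T.b i = 1 - (c : ℝ) / q / m

/-! ### quotient singularities -/

/-- the number `θ ∈ (0, 1]` with `z = |z| e^{2 π i θ}` -/
def th (z : ℂ) : ℝ :=
  if Int.fract (Complex.arg z / (2 * Real.pi)) = 0 then 1
  else Int.fract (Complex.arg z / (2 * Real.pi))

/-- `∑ θ_j`, `0 < θ_j ≤ 1`, where `e^{2 π i θ_j}` are the `n` eigenvalues of `g` -/
def logAge {n : ℕ} (g : GL (Fin n) ℂ) : ℝ :=
  ((g : Matrix (Fin n) (Fin n) ℂ).charpoly.roots.map th).sum

/-- The minimal log discrepancy at the image of the origin of the log quotient `(ℂ^n / G, B)`,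
where `B` is the boundary with `K_{ℂ^n} = π^* (K + B)` (`B = ∑ (1 - 1/m) D`, `m` the order of the
pointwise stabiliser of a component over `D`; `B = 0` if `G` contains no reflections): the minimum
over the elements of `G` of the numbers `logAge`. -/
def mldQuot {n : ℕ} (G : Subgroup (GL (Fin n) ℂ)) : ℝ := sInf {a : ℝ | ∃ g ∈ G, logAge g = a}

/-! ### the bounds -/

/-- `G` acts freely on `ℂ^n ∖ 0`; then `B = 0` and `ℂ^n / G` has an isolated singularity (or is
smooth, if `G = 1`) -/
def ActsFreely {n : ℕ} (G : Subgroup (GL (Fin n) ℂ)) : Prop :=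
  ∀ g ∈ G, g ≠ 1 → ∀ v : Fin n → ℂ, (g : Matrix (Fin n) (Fin n) ℂ).mulVec v = v → v = 0

/-- Sylvester's sequence `2, 3, 7, 43, 1807, …` -/
def sylvester : ℕ → ℕ
  | 0 => 2
  | k + 1 => sylvester k ^ 2 - sylvester k + 1

/-- Partial sums (first component) and partial products (second component) of the greedy
sequence `y_k = min (1, q (a - S_k) / (q + P_k))`. -/
def gapSeq (q a : ℝ) : ℕ → ℝ × ℝ
  | 0 => (0, 1)
  | k + 1 =>
    ((gapSeq q a k).1 + min 1 (q * (a - (gapSeq q a k).1) / (q + (gapSeq q a k).2)),
      (gapSeq q a k).2 * min 1 (q * (a - (gapSeq q a k).1) / (q + (gapSeq q a k).2)))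

/-- the explicit bound below the level `p / q` in dimension `n` -/
def levelBound (n p q : ℕ) : ℝ := (gapSeq q ((p : ℝ) / q) n).1

end

end MldGap
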