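import Pool.Agent.MldGap.Defs

/-!
# Cones: interior points and Carathéodory
-/

namespace MldGap

open Finset

variable {n : ℕ} {ι : Type} [Fintype ι]

theorem coneOf_add {e : ι → (Fin n → ℝ)} {x y : Fin n → ℝ} (hx : x ∈ coneOf e)
    (hy : y ∈ coneOf e) : x + y ∈ coneOf e := by
  obtain ⟨c, hc, rfl⟩ := hx
  obtain ⟨d, hd, rfl⟩ := hy
  refine ⟨fun i => c i + d i, fun i => add_nonneg (hc i) (hd i), ?_⟩
  simp [add_smul, sum_add_distrib]

theorem coneOf_smul {e : ι → (Fin n → ℝ)} {x : Fin n → ℝ} (hx : x ∈ coneOf e) {t : ℝ}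
    (ht : 0 ≤ t) : t • x ∈ coneOf e := by
  obtain ⟨c, hc, rfl⟩ := hx
  refine ⟨fun i => t * c i, fun i => mul_nonneg ht (hc i), ?_⟩
  simp [smul_sum, smul_smul]

theorem interior_add_mem {e : ι → (Fin n → ℝ)} {x y : Fin n → ℝ}
    (hx : x ∈ interior (coneOf e)) (hy : y ∈ coneOf e) : x + y ∈ interior (coneOf e) := by
  have hopen : IsOpen ((fun z => z + y) '' interior (coneOf e)) :=
    (Homeomorph.addRight y).isOpenMap _ isOpen_interior
  have hsub : (fun z => z + y) '' interior (coneOf e) ⊆ coneOf e := by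
    rintro _ ⟨z, hz, rfl⟩
    exact coneOf_add (interior_subset hz) hy
  exact interior_maximal hsub hopen ⟨x, hx, rfl⟩

theorem interior_smul_mem {e : ι → (Fin n → ℝ)} {x : Fin n → ℝ}
    (hx : x ∈ interior (coneOf e)) {t : ℝ} (ht : 0 < t) : t • x ∈ interior (coneOf e) := by
  have hopen : IsOpen ((fun z => t • z) '' interior (coneOf e)) :=
    (Homeomorph.smulOfNeZero t ht.ne').isOpenMap _ isOpen_interior
  have hsub : (fun z => t • z) '' interior (coneOf e) ⊆ coneOf e := by
    rintro _ ⟨z, hz, rfl⟩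
    exact coneOf_smul (interior_subset hz) ht.le
  exact interior_maximal hsub hopen ⟨x, hx, rfl⟩

theorem partial_mem [DecidableEq ι] (e : ι → (Fin n → ℝ)) (I : Finset ι) (w : ι → ℝ)
    (hw : ∀ i ∈ I, 0 ≤ w i) : ∑ i ∈ I, w i • e i ∈ coneOf e := by
  refine ⟨fun i => if i ∈ I then w i else 0, fun i => ?_, ?_⟩
  · by_cases h : i ∈ I
    · simp [h, hw i h]
    · simp [h]
  · simp only [ite_smul, zero_smul]
    rw [← Finset.sum_filter]
    congr 1
    ext i
    simp

/-- positive combinations of the same rays as an interior point are interior points -/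
theorem interior_of_pos [DecidableEq ι] (e : ι → (Fin n → ℝ)) (I : Finset ι) (x w : ι → ℝ)
    (hx : ∀ i ∈ I, 0 < x i) (hw : ∀ i ∈ I, 0 < w i)
    (hint : ∑ i ∈ I, x i • e i ∈ interior (coneOf e)) :
    ∑ i ∈ I, w i • e i ∈ interior (coneOf e) := by
  rcases I.eq_empty_or_nonempty with h | h
  · subst h; simpa using hint
  · obtain ⟨i0, hi0, hmin⟩ := I.exists_min_image (fun i => w i / x i) h
    set t := w i0 / x i0 with ht
    have ht0 : 0 < t := div_pos (hw i0 hi0) (hx i0 hi0)
    have h1 : ∑ i ∈ I, w i • e i = t • ∑ i ∈ I, x i • e i + ∑ i ∈ I, (w i - t * x i) • e i := by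
      rw [smul_sum, ← sum_add_distrib]
      refine sum_congr rfl fun i _ => ?_
      rw [smul_smul, ← add_smul]
      congr 1
      ring
    rw [h1]
    refine interior_add_mem (interior_smul_mem hint ht0) (partial_mem e I _ fun i hi => ?_)
    have h2 := hmin i hi
    have h3 : t * x i ≤ w i := by
      rw [← le_div_iff₀ (hx i hi)]
      exact h2
    linarith

/-- Carathéodory for cones -/
theorem caratheodory [DecidableEq ι] (e : ι → (Fin n → ℝ)) (v : Fin n → ℝ) (hv : v ∈ coneOf e) :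
    ∃ (I : Finset ι) (x : ι → ℝ), (∀ i ∈ I, 0 < x i) ∧ v = ∑ i ∈ I, x i • e i ∧
      LinearIndependent ℝ (fun i : I => e i) := by
  classical
  -- a representation with minimal support
  let P : ℕ → Prop := fun k => ∃ (I : Finset ι) (x : ι → ℝ), I.card = k ∧ (∀ i ∈ I, 0 < x i) ∧
    v = ∑ i ∈ I, x i • e i
  have hP : ∃ k, P k := by
    obtain ⟨c, hc, hv⟩ := hv
    refine ⟨_, univ.filter (fun i => 0 < c i), c, rfl, fun i hi => (mem_filter.1 hi).2, ?_⟩
    rw [hv, sum_filter]
    refine sum_congr rfl fun i _ => ?_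
    by_cases h : 0 < c i
    · simp [h]
    · have : c i = 0 := le_antisymm (not_lt.1 h) (hc i)
      simp [this]
  obtain ⟨I, x, hcard, hx, hvI⟩ := Nat.find_spec hP
  refine ⟨I, x, hx, hvI, ?_⟩
  by_contra hdep
  rw [Fintype.linearIndependent_iff] at hdep
  push Not at hdep
  obtain ⟨g, hg, i1, hi1⟩ := hdep
  -- extend to ι and make some entry positive
  obtain ⟨a, ha, i2, hi2, ha2⟩ : ∃ a : ι → ℝ, ∑ i ∈ I, a i • e i = 0 ∧ ∃ i2 ∈ I, 0 < a i2 := by
    let a0 : ι → ℝ := fun i => if h : i ∈ I then g ⟨i, h⟩ else 0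
    have h0 : ∑ i ∈ I, a0 i • e i = 0 := by
      rw [← hg, ← Finset.sum_coe_sort I]
      refine sum_congr rfl fun i _ => ?_
      simp [a0]
    rcases lt_or_gt_of_ne hi1 with h | h
    · refine ⟨fun i => - a0 i, ?_, i1, i1.2, ?_⟩
      · simp only [neg_smul, sum_neg_distrib, h0, neg_zero]
      · simp [a0, h]
    · exact ⟨a0, h0, i1, i1.2, by simp [a0, h]⟩
  have hne : (I.filter fun i => 0 < a i).Nonempty := ⟨i2, mem_filter.2 ⟨hi2, ha2⟩⟩
  obtain ⟨i0, hi0, hmin⟩ := (I.filter fun i => 0 < a i).exists_min_image (fun i => x i / a i) hne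
  obtain ⟨hi0I, ha0⟩ := mem_filter.1 hi0
  set t := x i0 / a i0 with ht
  have ht0 : 0 < t := div_pos (hx i0 hi0I) ha0
  let x' : ι → ℝ := fun i => x i - t * a i
  have hx'0 : ∀ i ∈ I, 0 ≤ x' i := by
    intro i hi
    simp only [x']
    by_cases h : 0 < a i
    · have h1 := hmin i (mem_filter.2 ⟨hi, h⟩)
      have h2 : t * a i ≤ x i := by
        rw [← le_div_iff₀ h]; exact h1
      linarith
    · have h2 : t * a i ≤ 0 := mul_nonpos_of_nonneg_of_nonpos ht0.le (not_lt.1 h)
      have := hx i hi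
      linarith
  have hx'i0 : x' i0 = 0 := by
    simp only [x', ht]
    rw [div_mul_cancel₀ _ ha0.ne', sub_self]
  have hsum : v = ∑ i ∈ I, x' i • e i := by
    simp only [x', sub_smul, sum_sub_distrib, mul_smul]
    rw [← smul_sum, ha, smul_zero, sub_zero]
    exact hvI
  have hlt : (I.filter fun i => 0 < x' i).card < I.card := by
    apply card_lt_card
    refine ⟨filter_subset _ _, fun hsub => ?_⟩
    have := (mem_filter.1 (hsub hi0I)).2
    rw [hx'i0] at this
    exact lt_irrefl _ this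
  have hPk : P (I.filter fun i => 0 < x' i).card := by
    refine ⟨_, x', rfl, fun i hi => (mem_filter.1 hi).2, ?_⟩
    rw [hsum, sum_filter]
    refine sum_congr rfl fun i hi => ?_
    by_cases h : 0 < x' i
    · simp [h]
    · have : x' i = 0 := le_antisymm (not_lt.1 h) (hx'0 i hi)
      simp [this]
  have := Nat.find_min' hP hPk
  omega

end MldGap
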