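import Pool.Agent.MldGap.Core
import Pool.Agent.MldGap.Cone

/-!
# The gap theorem for toric germs
-/

namespace MldGap

open Finset

variable {n : ℕ}

theorem ToricGerm.ψ_nonneg (T : ToricGerm n) {x : Fin n → ℝ} (hx : x ∈ coneOf T.ray) :
    0 ≤ T.ψ x := by
  obtain ⟨c, hc, rfl⟩ := hx
  rw [map_sum]
  refine sum_nonneg fun i _ => ?_
  rw [map_smul, T.ψ_ray, smul_eq_mul]
  exact mul_nonneg (hc i) (by linarith [T.b_le_one i])

theorem ToricGerm.bddBelow (T : ToricGerm n) :
    BddBelow {a : ℝ | ∃ v ∈ T.N, v ∈ interior (coneOf T.ray) ∧ T.ψ v = a} := by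
  refine ⟨0, ?_⟩
  rintro _ ⟨v, _, hv, rfl⟩
  exact T.ψ_nonneg (interior_subset hv)

theorem ToricGerm.nonempty (T : ToricGerm n) :
    {a : ℝ | ∃ v ∈ T.N, v ∈ interior (coneOf T.ray) ∧ T.ψ v = a}.Nonempty := by
  classical
  obtain ⟨v, hv⟩ := T.full
  have hsum : ∑ i, T.ray i ∈ interior (coneOf T.ray) := by
    obtain ⟨c, hc, hvc⟩ := interior_subset hv
    -- t (v) + rest
    set M : ℝ := 1 + ∑ i, c i with hM
    have hM0 : 0 < M := by
      have : 0 ≤ ∑ i, c i := sum_nonneg fun i _ => hc i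
      linarith
    have hle : ∀ i, c i ≤ M := by
      intro i
      have : c i ≤ ∑ j, c j := single_le_sum (fun j _ => hc j) (mem_univ i)
      linarith
    have h1 : ∑ i, T.ray i = M⁻¹ • v + ∑ i, (1 - M⁻¹ * c i) • T.ray i := by
      rw [hvc, smul_sum, ← sum_add_distrib]
      refine sum_congr rfl fun i _ => ?_
      rw [smul_smul, ← add_smul]
      have : M⁻¹ * c i + (1 - M⁻¹ * c i) = 1 := by ring
      rw [this, one_smul]
    rw [h1]
    refine interior_add_mem (interior_smul_mem hv (inv_pos.2 hM0)) (partial_mem _ _ _ fun i _ => ?_)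
    have : M⁻¹ * c i ≤ 1 := by
      rw [inv_mul_le_iff₀ hM0, mul_one]
      exact hle i
    linarith
  exact ⟨_, _, sum_mem fun i _ => T.ray_mem i, hsum, rfl⟩

theorem toric_bound {p q : ℕ} (hp : 0 < p) (hq : 0 < q) (T : ToricGerm n)
    (hT : T.Hyperstandard q) (hlt : T.mld < (p : ℝ) / q) : T.mld ≤ levelBound n p q := by
  classical
  have hq' : (0 : ℝ) < q := by exact_mod_cast hq
  have hp' : (0 : ℝ) < p := by exact_mod_cast hp
  choose c m hc hm hb using hT
  -- the multiples of the primitive generators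
  set g : T.ι → (Fin n → ℝ) := fun i => (m i : ℝ) • T.ray i with hg
  have hm' : ∀ i, (0 : ℝ) < m i := fun i => by exact_mod_cast hm i
  have hgN : ∀ i, g i ∈ T.N := fun i => by
    have := T.N.nsmul_mem (T.ray_mem i) (m i)
    rw [← Nat.cast_smul_eq_nsmul ℝ] at this
    exact this
  have hψg : ∀ i, T.ψ (g i) = (c i : ℝ) / q := fun i => by
    rw [hg, map_smul, T.ψ_ray, hb i, smul_eq_mul]
    have := (hm' i).ne'
    field_simp
    ring
  have hcone : coneOf g = coneOf T.ray := by
    ext x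
    constructor
    · rintro ⟨a, ha, rfl⟩
      refine ⟨fun i => a i * m i, fun i => mul_nonneg (ha i) (hm' i).le, ?_⟩
      refine sum_congr rfl fun i _ => ?_
      rw [hg, smul_smul]
    · rintro ⟨a, ha, rfl⟩
      refine ⟨fun i => a i / m i, fun i => div_nonneg (ha i) (hm' i).le, ?_⟩
      refine sum_congr rfl fun i _ => ?_
      rw [hg, smul_smul, div_mul_cancel₀ _ (hm' i).ne']
  -- an almost minimal lattice point
  obtain ⟨_, ⟨v, hvN, hvint, rfl⟩, hvlt⟩ := exists_lt_of_csInf_lt T.nonempty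
    (show T.mld < (T.mld + (p : ℝ) / q) / 2 by linarith)
  rw [← hcone] at hvint
  obtain ⟨I, x, hx, hvx, hind⟩ := caratheodory g v (interior_subset hvint)
  -- reduce the coordinates
  set z : T.ι → ℤ := fun i => ⌈x i⌉ - 1 with hz
  set x' : T.ι → ℝ := fun i => x i - z i with hx'
  have hx'0 : ∀ i, 0 < x' i := fun i => by
    simp only [hx', hz]
    have := Int.ceil_lt_add_one (x i)
    push_cast
    linarith
  have hx'1 : ∀ i, x' i ≤ 1 := fun i => by
    simp only [hx', hz]
    have := Int.le_ceil (x i)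
    push_cast
    linarith
  have hz0 : ∀ i ∈ I, 0 ≤ z i := fun i hi => by
    have := Int.one_le_ceil_iff.2 (hx i hi)
    simp only [hz]
    omega
  rw [hvx] at hvint hvN hvlt
  have hv'int : ∑ i ∈ I, x' i • g i ∈ interior (coneOf g) :=
    interior_of_pos g I x x' hx (fun i _ => hx'0 i) hvint
  have hv'N : ∑ i ∈ I, x' i • g i ∈ T.N := by
    have h1 : ∑ i ∈ I, x' i • g i = ∑ i ∈ I, x i • g i - ∑ i ∈ I, (z i) • g i := by
      rw [← sum_sub_distrib]
      refine sum_congr rfl fun i _ => ?_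
      simp only [hx']
      rw [sub_smul, Int.cast_smul_eq_zsmul]
    rw [h1]
    exact T.N.sub_mem hvN (sum_mem fun i _ => T.N.zsmul_mem (hgN i) _)
  have hψ : ∀ w : T.ι → ℝ, T.ψ (∑ i ∈ I, w i • g i) = ∑ i ∈ I, (c i : ℝ) / q * w i := by
    intro w
    rw [map_sum]
    refine sum_congr rfl fun i _ => ?_
    rw [map_smul, hψg, smul_eq_mul, mul_comm]
  have hv'ψ : T.ψ (∑ i ∈ I, x' i • g i) < (T.mld + (p : ℝ) / q) / 2 := by
    refine lt_of_le_of_lt ?_ hvlt
    rw [hψ, hψ]
    refine sum_le_sum fun i hi => ?_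
    refine mul_le_mul_of_nonneg_left ?_ (by positivity)
    simp only [hx']
    have : (0 : ℝ) ≤ z i := by exact_mod_cast hz0 i hi
    linarith
  have hmin : ∀ w : T.ι → ℝ, (∀ i ∈ I, 0 < w i) → ∑ i ∈ I, w i • g i ∈ T.N →
      T.mld ≤ T.ψ (∑ i ∈ I, w i • g i) := by
    intro w hw hN
    refine csInf_le T.bddBelow ⟨_, hN, ?_, rfl⟩
    rw [← hcone]
    exact interior_of_pos g I x' w (fun i _ => hx'0 i) hw hv'int
  have hmld' : T.mld ≤ T.ψ (∑ i ∈ I, x' i • g i) := hmin x' (fun i _ => hx'0 i) hv'N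
  -- the core inequality
  have hsumI : ∀ w : T.ι → ℝ, ∑ i : I, ((c i : ℤ) : ℝ) * w i = q * ∑ i ∈ I, (c i : ℝ) / q * w i := by
    intro w
    rw [Finset.sum_coe_sort I (fun i => ((c i : ℤ) : ℝ) * w i), mul_sum]
    refine sum_congr rfl fun i _ => ?_
    field_simp
    push_cast
    ring
  have hcore := core (ι := I) (fun i => x' i) (fun i => hx'0 i) (fun i => hx'1 i)
    (fun i => (c i : ℤ)) hp hq (fun i => by positivity) (fun i => by exact_mod_cast hc i)
    (by
      rw [hsumI, ← hψ]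
      have : T.ψ (∑ i ∈ I, x' i • g i) < (p : ℝ) / q := by linarith
      rw [lt_div_iff₀ hq'] at this
      linarith)
    (by
      intro k hk y hy hsum
      have hk' : (2 : ℝ) ≤ k := by exact_mod_cast hk
      let y' : T.ι → ℤ := fun i => if h : i ∈ I then y ⟨i, h⟩ else 0
      have hy' : ∀ i (h : i ∈ I), y' i = y ⟨i, h⟩ := fun i h => by simp [y', h]
      have hpos : ∀ i ∈ I, 0 < (k : ℝ) * x' i - y' i := fun i hi => by
        rw [hy' i hi]
        have := hy ⟨i, hi⟩
        simp only at this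
        linarith
      have hN : ∑ i ∈ I, ((k : ℝ) * x' i - y' i) • g i ∈ T.N := by
        have h1 : ∑ i ∈ I, ((k : ℝ) * x' i - y' i) • g i =
            k • ∑ i ∈ I, x' i • g i - ∑ i ∈ I, (y' i) • g i := by
          rw [smul_sum, ← sum_sub_distrib]
          refine sum_congr rfl fun i _ => ?_
          rw [sub_smul, Int.cast_smul_eq_zsmul, mul_smul, Nat.cast_smul_eq_nsmul]
        rw [h1]
        exact T.N.sub_mem (T.N.nsmul_mem hv'N k) (sum_mem fun i _ => T.N.zsmul_mem (hgN i) _)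
      have h1 := hmin _ hpos hN
      have h2 : T.ψ (∑ i ∈ I, ((k : ℝ) * x' i - y' i) • g i) =
          k * T.ψ (∑ i ∈ I, x' i • g i) - ((k : ℝ) - 1) * (p / q) := by
        rw [hψ, hψ]
        have h3 : ∑ i ∈ I, (c i : ℝ) / q * y' i = ((k : ℝ) - 1) * (p / q) := by
          have h4 : ∑ i : I, ((c i : ℤ) : ℝ) * ((y' i : ℤ) : ℝ) = ((k : ℝ) - 1) * p := by
            have h5 : ((∑ i : I, (c i : ℤ) * y i : ℤ) : ℝ) = ((((k : ℤ) - 1) * p : ℤ) : ℝ) := by
              rw [hsum]
            push_cast at h5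
            rw [← h5]
            refine sum_congr rfl fun i _ => ?_
            rw [hy' i i.2]
            push_cast
            rfl
          rw [hsumI (fun i => ((y' i : ℤ) : ℝ))] at h4
          field_simp at h4 ⊢
          linarith
        rw [← h3, mul_sum, ← sum_sub_distrib]
        refine sum_congr rfl fun i _ => ?_
        ring
      rw [h2] at h1
      set s := T.ψ (∑ i ∈ I, x' i • g i) with hs
      nlinarith)
  rw [hsumI, ← hψ, mul_div_cancel_left₀ _ hq'.ne'] at hcore
  refine hmld'.trans (hcore.trans ?_)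
  unfold levelBound
  refine gapSeq_fst_mono hq' (by positivity) ?_
  have := hind.fintype_card_le_finrank
  simpa using this

end MldGap
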