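import Pool.Agent.MldGap.Toric

/-!
# The bound at integer levels and the extremal toric pairs
-/

namespace MldGap

open Finset

theorem two_le_sylvester (k : ℕ) : 2 ≤ sylvester k := by
  induction k with
  | zero => simp [sylvester]
  | succ k ih =>
    simp only [sylvester]
    have : sylvester k * 2 ≤ sylvester k ^ 2 := by nlinarith
    omega

theorem sylvester_cast (k : ℕ) :
    ((sylvester (k + 1) : ℕ) : ℝ) - 1 = (sylvester k : ℝ) * ((sylvester k : ℝ) - 1) := by
  have h := two_le_sylvester k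
  have h1 : sylvester k ≤ sylvester k ^ 2 := by nlinarith
  simp only [sylvester]
  push_cast [Nat.cast_sub h1]
  ring

theorem sylvester_real (k : ℕ) : (2 : ℝ) ≤ sylvester k := by
  exact_mod_cast two_le_sylvester k

theorem sum_inv_sylvester (m : ℕ) :
    ∑ j ∈ range m, 1 / (sylvester j : ℝ) = 1 - 1 / ((sylvester m : ℝ) - 1) := by
  induction m with
  | zero => simp [sylvester]; norm_num
  | succ m ih =>
    rw [sum_range_succ, ih, sylvester_cast]
    have h := sylvester_real m
    have h1 : (sylvester m : ℝ) ≠ 0 := by linarith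
    have h2 : (sylvester m : ℝ) - 1 ≠ 0 := by linarith
    field_simp
    ring

theorem gapSeq_int_start (l : ℕ) :
    ∀ k : ℕ, k + 1 ≤ l → gapSeq 1 l k = ((k : ℝ), 1) := by
  intro k
  induction k with
  | zero => intro _; simp [gapSeq]
  | succ k ih =>
    intro hk
    have h0 := ih (by omega)
    have hkl : (k : ℝ) + 2 ≤ l := by exact_mod_cast hk
    have hmin : min 1 ((1 : ℝ) * ((l : ℝ) - (gapSeq 1 l k).1) / (1 + (gapSeq 1 l k).2)) = 1 := by
      rw [h0]
      apply min_eq_left
      rw [le_div_iff₀ (by norm_num)]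
      linarith
    rw [gapSeq, hmin, h0]
    simp

theorem gapSeq_int (l : ℕ) (hl : 1 ≤ l) (j : ℕ) :
    gapSeq 1 l (l - 1 + j) = ((l : ℝ) - 1 / ((sylvester j : ℝ) - 1),
      1 / ((sylvester j : ℝ) - 1)) := by
  induction j with
  | zero =>
    rw [add_zero, gapSeq_int_start l (l - 1) (by omega)]
    have : ((l - 1 : ℕ) : ℝ) = l - 1 := by push_cast [Nat.cast_sub hl]; ring
    rw [this]
    norm_num [sylvester]
  | succ j ih =>
    have h := sylvester_real j
    have h1 : (sylvester j : ℝ) ≠ 0 := by linarith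
    have h2 : (sylvester j : ℝ) - 1 ≠ 0 := by linarith
    have h3 : (0 : ℝ) < (sylvester j : ℝ) - 1 := by linarith
    have hmin : min 1 ((1 : ℝ) * ((l : ℝ) - (gapSeq 1 l (l - 1 + j)).1) /
        (1 + (gapSeq 1 l (l - 1 + j)).2)) = 1 / sylvester j := by
      rw [ih]
      have h4 : (1 : ℝ) * ((l : ℝ) - (l - 1 / ((sylvester j : ℝ) - 1))) /
          (1 + 1 / ((sylvester j : ℝ) - 1)) = 1 / sylvester j := by
        have h5 : (1 : ℝ) + 1 / ((sylvester j : ℝ) - 1) = sylvester j / ((sylvester j : ℝ) - 1) := by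
          field_simp
          ring
        rw [h5]
        field_simp
        ring
      rw [h4]
      apply min_eq_right
      rw [div_le_one (by linarith)]
      linarith
    rw [← add_assoc, gapSeq, hmin, ih, sylvester_cast]
    refine Prod.ext ?_ ?_
    · simp only
      field_simp
      ring
    · simp only
      field_simp

theorem levelBound_int (n l : ℕ) (hl : 1 ≤ l) (hln : l ≤ n) :
    levelBound n l 1 = (l : ℝ) - 1 / ((sylvester (n - l + 1) : ℝ) - 1) := by
  unfold levelBound
  have h := gapSeq_int l hl (n - l + 1)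
  have h1 : l - 1 + (n - l + 1) = n := by omega
  rw [h1] at h
  rw [Nat.cast_one, div_one, h]

/-- the denominators of the extremal pair: `1` (`l - 1` times), then `2, 3, 7, 43, …` -/
def den (l i : ℕ) : ℕ := if i < l - 1 then 1 else sylvester (i - (l - 1))

theorem den_pos (l i : ℕ) : 0 < den l i := by
  unfold den
  split_ifs
  · exact one_pos
  · have := two_le_sylvester (i - (l - 1)); omega

theorem sum_inv_den (n l : ℕ) (hl : 1 ≤ l) (hln : l ≤ n) :
    ∑ i : Fin n, 1 / (den l i : ℝ) = (l : ℝ) - 1 / ((sylvester (n - l + 1) : ℝ) - 1) := by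
  rw [Fin.sum_univ_eq_sum_range (fun i => 1 / (den l i : ℝ)) n]
  obtain ⟨m, rfl⟩ : ∃ m, n = (l - 1) + m := ⟨n - (l - 1), by omega⟩
  rw [sum_range_add]
  have h1 : ∑ i ∈ range (l - 1), 1 / (den l i : ℝ) = (l : ℝ) - 1 := by
    rw [sum_congr rfl (g := fun _ => (1 : ℝ))]
    · simp only [sum_const, card_range, nsmul_eq_mul, mul_one]
      push_cast [Nat.cast_sub hl]
      ring
    · intro i hi
      simp [den, mem_range.1 hi]
  have h2 : ∑ i ∈ range m, 1 / (den l (l - 1 + i) : ℝ) = ∑ i ∈ range m, 1 / (sylvester i : ℝ) := by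
    refine sum_congr rfl fun i _ => ?_
    simp [den]
  rw [h1, h2, sum_inv_sylvester]
  have h3 : l - 1 + m - l + 1 = m := by omega
  rw [h3]
  ring

theorem coneOf_std (n : ℕ) :
    coneOf (fun i : Fin n => (Pi.single i 1 : Fin n → ℝ)) = Set.univ.pi fun _ => Set.Ici 0 := by
  ext x
  simp only [Set.mem_pi, Set.mem_univ, true_imp_iff, Set.mem_Ici]
  constructor
  · rintro ⟨c, hc, rfl⟩ i
    simp only [Finset.sum_apply, Pi.smul_apply, Pi.single_apply, smul_eq_mul, mul_ite, mul_one,
      mul_zero, Finset.sum_ite_eq, Finset.mem_univ, if_true]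
    exact hc i
  · intro h
    refine ⟨x, h, ?_⟩
    ext i
    simp [Finset.sum_apply, Pi.single_apply]

theorem interior_coneOf_std (n : ℕ) :
    interior (coneOf (fun i : Fin n => (Pi.single i 1 : Fin n → ℝ))) =
      Set.univ.pi fun _ => Set.Ioi 0 := by
  rw [coneOf_std, interior_pi_set Set.finite_univ]
  simp

/-- The extremal toric pair `ℂ^{l-1} × (𝔸^{n-l+1}, ½ D + ⅔ D + 6/7 D + …)`. -/
noncomputable def extremal (n l : ℕ) : ToricGerm n where
  N := (Submodule.span ℤ (Set.range (Pi.basisFun ℝ (Fin n)))).toAddSubgroup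
  discrete := inferInstance
  ι := Fin n
  fin := inferInstance
  ray i := Pi.single i 1
  ray_mem i := by
    have : (Pi.single i 1 : Fin n → ℝ) = Pi.basisFun ℝ (Fin n) i := by simp
    rw [this]
    exact Submodule.subset_span ⟨i, rfl⟩
  ray_primitive i t ht h := by
    have h' : t • (Pi.single i 1 : Fin n → ℝ) ∈
        Submodule.span ℤ (Set.range (Pi.basisFun ℝ (Fin n))) := h
    rw [span_std] at h'
    obtain ⟨z, _, hz⟩ := h'
    have h1 := congrFun hz i
    simp only [jmap, LinearMap.coe_mk, AddHom.coe_mk, Pi.smul_apply, Pi.single_eq_same,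
      smul_eq_mul, mul_one] at h1
    rw [← h1] at ht ⊢
    have : 0 < z i := by exact_mod_cast ht
    exact_mod_cast this
  ray_extremal i := by
    rintro ⟨c, _, hci, h⟩
    have h1 := congrFun h i
    simp [Finset.sum_apply, Pi.single_apply, hci] at h1
  full := by
    rw [interior_coneOf_std]
    exact ⟨fun _ => 1, fun i _ => by simp⟩
  pointed := ⟨∑ i, LinearMap.proj i, fun i => by
    simp [LinearMap.sum_apply, Pi.single_apply]⟩
  b i := 1 - 1 / (den l i : ℝ)
  b_nonneg i := by
    have : (1 : ℝ) ≤ den l i := by exact_mod_cast den_pos l i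
    rw [sub_nonneg, div_le_one (by linarith)]
    exact this
  b_le_one i := by
    have : (1 : ℝ) ≤ den l i := by exact_mod_cast den_pos l i
    have : 0 ≤ 1 / (den l i : ℝ) := by positivity
    linarith
  ψ := ∑ i : Fin n, (1 / (den l i : ℝ)) • LinearMap.proj i
  ψ_ray i := by
    simp [LinearMap.sum_apply, Pi.single_apply]

theorem extremal_ψ (n l : ℕ) (x : Fin n → ℝ) :
    (extremal n l).ψ x = ∑ i : Fin n, 1 / (den l i : ℝ) * x i := by
  show (∑ i : Fin n, (1 / (den l i : ℝ)) • LinearMap.proj i : (Fin n → ℝ) →ₗ[ℝ] ℝ) x = _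
  simp [LinearMap.sum_apply]

theorem extremal_mld (n l : ℕ) (hl : 1 ≤ l) (hln : l ≤ n) :
    (extremal n l).mld = (l : ℝ) - 1 / ((sylvester (n - l + 1) : ℝ) - 1) := by
  rw [← sum_inv_den n l hl hln]
  apply le_antisymm
  · refine csInf_le (extremal n l).bddBelow ⟨∑ i, (extremal n l).ray i, ?_, ?_, ?_⟩
    · exact sum_mem fun i _ => (extremal n l).ray_mem i
    · show ∑ i : Fin n, (Pi.single i 1 : Fin n → ℝ) ∈
        interior (coneOf (fun i : Fin n => (Pi.single i 1 : Fin n → ℝ)))
      rw [interior_coneOf_std]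
      intro i _
      simp [Finset.sum_apply, Pi.single_apply]
    · rw [extremal_ψ]
      refine sum_congr rfl fun i _ => ?_
      show 1 / (den l i : ℝ) * (∑ j : Fin n, (Pi.single j 1 : Fin n → ℝ)) i = _
      simp [Finset.sum_apply, Pi.single_apply]
  · refine le_csInf (extremal n l).nonempty ?_
    rintro _ ⟨v, hvN, hv, rfl⟩
    rw [extremal_ψ]
    have hv' : v ∈ Set.univ.pi fun _ : Fin n => Set.Ioi (0 : ℝ) := by
      rw [← interior_coneOf_std]
      exact hv
    have hvN' : v ∈ Submodule.span ℤ (Set.range (Pi.basisFun ℝ (Fin n))) := hvN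
    rw [span_std] at hvN'
    obtain ⟨z, _, rfl⟩ := hvN'
    refine sum_le_sum fun i _ => ?_
    have h1 : (0 : ℝ) < (z i : ℝ) := hv' i (Set.mem_univ i)
    have h2 : 1 ≤ z i := by
      have : 0 < z i := by exact_mod_cast h1
      omega
    have h3 : (1 : ℝ) ≤ z i := by exact_mod_cast h2
    have h4 : 0 ≤ 1 / (den l i : ℝ) := by positivity
    calc 1 / (den l i : ℝ) = 1 / (den l i : ℝ) * 1 := (mul_one _).symm
      _ ≤ 1 / (den l i : ℝ) * z i := mul_le_mul_of_nonneg_left h3 h4

theorem extremal_hyperstandard (n l : ℕ) : (extremal n l).Hyperstandard 1 := by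
  intro i
  refine ⟨1, den l (show Fin n from i), le_rfl, den_pos l _, ?_⟩
  show 1 - 1 / (den l (show Fin n from i) : ℝ) = _
  simp

theorem toric_isGreatest (n l : ℕ) (hl : 1 ≤ l) (hln : l ≤ n) :
    IsGreatest {μ : ℝ | ∃ T : ToricGerm n, T.Hyperstandard 1 ∧ T.mld = μ ∧ μ < l}
      ((l : ℝ) - 1 / ((sylvester (n - l + 1) : ℝ) - 1)) := by
  constructor
  · refine ⟨extremal n l, extremal_hyperstandard n l, extremal_mld n l hl hln, ?_⟩
    have := sylvester_real (n - l + 1)
    have : 0 < 1 / ((sylvester (n - l + 1) : ℝ) - 1) := by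
      apply div_pos one_pos; linarith
    linarith
  · rintro _ ⟨T, hT, rfl, hlt⟩
    have := toric_bound (p := l) (q := 1) (by omega) one_pos T hT (by simpa using hlt)
    rwa [levelBound_int n l hl hln] at this

end MldGap
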