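import Pool.Agent.MldGap.Defs

/-!
# The extremal sequence of the gap theorem
-/

namespace MldGap

open Finset

/-- the greedy sequence itself -/
noncomputable def yy (q a : ℝ) (k : ℕ) : ℝ :=
  min 1 (q * (a - (gapSeq q a k).1) / (q + (gapSeq q a k).2))

theorem gapSeq_fst_succ (q a : ℝ) (k : ℕ) :
    (gapSeq q a (k + 1)).1 = (gapSeq q a k).1 + yy q a k := rfl

theorem gapSeq_snd_succ (q a : ℝ) (k : ℕ) :
    (gapSeq q a (k + 1)).2 = (gapSeq q a k).2 * yy q a k := rfl

theorem gapSeq_fst_eq (q a : ℝ) (k : ℕ) :
    (gapSeq q a k).1 = ∑ i ∈ range k, yy q a i := by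
  induction k with
  | zero => simp [gapSeq]
  | succ k ih => rw [gapSeq_fst_succ, sum_range_succ, ih]

theorem gapSeq_snd_eq (q a : ℝ) (k : ℕ) :
    (gapSeq q a k).2 = ∏ i ∈ range k, yy q a i := by
  induction k with
  | zero => simp [gapSeq]
  | succ k ih => rw [gapSeq_snd_succ, prod_range_succ, ih]

variable {q a : ℝ}

theorem gapSeq_pos (hq : 0 < q) (ha : 0 < a) (k : ℕ) :
    0 < a - (gapSeq q a k).1 ∧ 0 < (gapSeq q a k).2 := by
  induction k with
  | zero => simpa [gapSeq] using ha
  | succ k ih =>
    obtain ⟨h1, h2⟩ := ih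
    have hy0 : 0 < yy q a k := by
      unfold yy
      refine lt_min one_pos ?_
      positivity
    have hy1 : yy q a k ≤ q * (a - (gapSeq q a k).1) / (q + (gapSeq q a k).2) := min_le_right _ _
    have hy2 : q * (a - (gapSeq q a k).1) / (q + (gapSeq q a k).2) < a - (gapSeq q a k).1 := by
      rw [div_lt_iff₀ (by positivity)]
      nlinarith [mul_pos h1 h2]
    refine ⟨?_, ?_⟩
    · rw [gapSeq_fst_succ]; linarith
    · rw [gapSeq_snd_succ]; positivity

theorem yy_pos (hq : 0 < q) (ha : 0 < a) (k : ℕ) : 0 < yy q a k := by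
  obtain ⟨h1, h2⟩ := gapSeq_pos hq ha k
  unfold yy
  refine lt_min one_pos ?_
  positivity

theorem yy_le_one (k : ℕ) : yy q a k ≤ 1 := min_le_left _ _

theorem gapSeq_eq_of_lt (hq : 0 < q) (ha : 0 < a) {k : ℕ} (h : yy q a k < 1) :
    q * (a - (gapSeq q a (k + 1)).1) = (gapSeq q a (k + 1)).2 := by
  obtain ⟨h1, h2⟩ := gapSeq_pos hq ha k
  have hy : yy q a k = q * (a - (gapSeq q a k).1) / (q + (gapSeq q a k).2) := by
    unfold yy at h ⊢
    rcases min_choice 1 (q * (a - (gapSeq q a k).1) / (q + (gapSeq q a k).2)) with h' | h'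
    · rw [h'] at h; exact absurd h (lt_irrefl _)
    · exact h'
  have hy' : yy q a k * (q + (gapSeq q a k).2) = q * (a - (gapSeq q a k).1) := by
    rw [hy, div_mul_cancel₀ _ (by positivity)]
  rw [gapSeq_fst_succ, gapSeq_snd_succ]
  nlinarith

theorem yy_lt_one_succ (hq : 0 < q) (ha : 0 < a) {k : ℕ} (h : yy q a k < 1) :
    yy q a (k + 1) < 1 := by
  have h0 := gapSeq_eq_of_lt hq ha h
  obtain ⟨h1, h2⟩ := gapSeq_pos hq ha (k + 1)
  calc yy q a (k + 1) ≤ q * (a - (gapSeq q a (k + 1)).1) / (q + (gapSeq q a (k + 1)).2) :=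
        min_le_right _ _
    _ < 1 := by
        rw [h0, div_lt_one (by positivity)]
        linarith

theorem yy_lt_one_of_le (hq : 0 < q) (ha : 0 < a) {j k : ℕ} (hjk : j ≤ k) (h : yy q a j < 1) :
    yy q a k < 1 := by
  induction k, hjk using Nat.le_induction with
  | base => exact h
  | succ k _ ih => exact yy_lt_one_succ hq ha ih

theorem gapSeq_fst_mono (hq : 0 < q) (ha : 0 < a) : Monotone fun k => (gapSeq q a k).1 := by
  refine monotone_nat_of_le_succ fun k => ?_
  rw [gapSeq_fst_succ]
  linarith [yy_pos hq ha k]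

theorem gapSeq_fst_eq_of_one (k : ℕ) (h : ∀ j < k, yy q a j = 1) : (gapSeq q a k).1 = k := by
  rw [gapSeq_fst_eq, sum_congr rfl (fun i hi => h i (mem_range.1 hi))]
  simp

/-- weighted tail sums -/
theorem weighted_nonneg (n : ℕ) (d w : ℕ → ℝ) (hw0 : ∀ i < n, 0 ≤ w i)
    (hw : ∀ i, i + 1 < n → w i ≤ w (i + 1))
    (hd : ∀ j < n, 0 ≤ ∑ i ∈ Ico j n, d i) : 0 ≤ ∑ i ∈ range n, w i * d i := by
  have key : ∀ m j, n = j + m → 0 < m →
      w j * ∑ i ∈ Ico j n, d i ≤ ∑ i ∈ Ico j n, w i * d i := by
    intro m
    induction m with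
    | zero => intro j _ h; exact absurd h (lt_irrefl _)
    | succ m ih =>
      intro j hj _
      have hjn : j < n := by omega
      rw [sum_eq_sum_Ico_succ_bot hjn, sum_eq_sum_Ico_succ_bot hjn]
      rcases Nat.eq_zero_or_pos m with hm | hm
      · subst hm
        have hj' : j + 1 = n := by omega
        rw [hj']
        simp
      · have h1 := ih (j + 1) (by omega) hm
        have h2 := hw j (by omega)
        have h3 := hd (j + 1) (by omega)
        nlinarith [mul_le_mul_of_nonneg_right h2 h3]
  rcases Nat.eq_zero_or_pos n with hn | hn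
  · subst hn; simp
  · have h1 := key n 0 (by simp) hn
    have h2 := hd 0 hn
    have h3 := hw0 0 hn
    have h4 : range n = Ico 0 n := by rw [range_eq_Ico]
    rw [h4]
    exact le_trans (mul_nonneg h3 h2) h1

/-- The extremal lemma (antitone version). -/
theorem sum_le_gapSeq (hq : 0 < q) (ha : 0 < a) (x : ℕ → ℝ) (n : ℕ)
    (hx1 : ∀ i < n, x i ≤ 1) (hanti : ∀ i, i + 1 < n → x (i + 1) ≤ x i)
    (hprod : ∀ k ≤ n, ∏ i ∈ range k, x i ≤ q * (a - ∑ i ∈ range k, x i)) :
    ∀ k ≤ n, ∑ i ∈ range k, x i ≤ (gapSeq q a k).1 := by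
  intro k
  induction k using Nat.strong_induction_on with
  | _ k ih =>
    intro hk
    by_contra hcon
    push Not at hcon
    rcases Nat.eq_zero_or_pos k with hk0 | hk0
    · subst hk0
      simp [gapSeq] at hcon
    obtain ⟨k', rfl⟩ : ∃ k', k = k' + 1 := ⟨k - 1, by omega⟩
    rcases lt_or_eq_of_le (yy_le_one (q := q) (a := a) k') with hy | hy
    · -- the product case
      have heq := gapSeq_eq_of_lt hq ha hy
      have hp := hprod (k' + 1) hk
      -- tails
      have htail : ∀ j < k' + 1, 0 < ∑ i ∈ Ico j (k' + 1), (x i - yy q a i) := by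
        intro j hj
        have h1 := ih j hj (by omega)
        rw [gapSeq_fst_eq] at h1 hcon
        rw [sum_sub_distrib]
        have h2 := sum_range_add_sum_Ico x (show j ≤ k' + 1 by omega)
        have h3 := sum_range_add_sum_Ico (yy q a) (show j ≤ k' + 1 by omega)
        linarith
      have hlast : 0 < x k' := by
        have h1 := htail k' (by omega)
        rw [show Ico k' (k' + 1) = {k'} by ext; simp, sum_singleton] at h1
        linarith [yy_pos (q := q) (a := a) hq ha k']
      have hxpos : ∀ i < k' + 1, 0 < x i := by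
        have : ∀ m, ∀ i, i + m = k' → 0 < x i := by
          intro m
          induction m with
          | zero => intro i hi; rw [show i = k' by omega]; exact hlast
          | succ m ihm =>
            intro i hi
            exact lt_of_lt_of_le (ihm (i + 1) (by omega)) (hanti i (by omega))
        intro i hi
        exact this (k' - i) i (by omega)
      have hw := weighted_nonneg (k' + 1) (fun i => x i - yy q a i) (fun i => (x i)⁻¹)
        (fun i hi => (inv_pos.2 (hxpos i hi)).le)
        (fun i hi => by
          have h1 := hanti i (by omega)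
          exact inv_anti₀ (hxpos (i + 1) hi) h1)
        (fun j hj => (htail j hj).le)
      -- product comparison
      have hratio : ∏ i ∈ range (k' + 1), (yy q a i / x i) ≤ 1 := by
        calc ∏ i ∈ range (k' + 1), (yy q a i / x i)
            ≤ ∏ i ∈ range (k' + 1), Real.exp (yy q a i / x i - 1) := by
              refine prod_le_prod (fun i hi => ?_) (fun i hi => ?_)
              · exact div_nonneg (yy_pos hq ha i).le (hxpos i (mem_range.1 hi)).le
              · have := Real.add_one_le_exp (yy q a i / x i - 1)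
                linarith
          _ = Real.exp (∑ i ∈ range (k' + 1), (yy q a i / x i - 1)) := by
              rw [Real.exp_sum]
          _ ≤ 1 := by
              rw [Real.exp_le_one_iff]
              have h1 : ∑ i ∈ range (k' + 1), (yy q a i / x i - 1)
                  = - ∑ i ∈ range (k' + 1), (x i)⁻¹ * (x i - yy q a i) := by
                rw [← sum_neg_distrib]
                refine sum_congr rfl fun i hi => ?_
                have := (hxpos i (mem_range.1 hi)).ne'
                field_simp
                ring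
              rw [h1]
              linarith
      have hle : ∏ i ∈ range (k' + 1), yy q a i ≤ ∏ i ∈ range (k' + 1), x i := by
        have hposx : 0 < ∏ i ∈ range (k' + 1), x i :=
          prod_pos fun i hi => hxpos i (mem_range.1 hi)
        rw [prod_div_distrib, div_le_one hposx] at hratio
        exact hratio
      rw [← gapSeq_snd_eq, ← heq] at hle
      have h5 : q * (a - ∑ i ∈ range (k' + 1), x i) < q * (a - (gapSeq q a (k' + 1)).1) :=
        mul_lt_mul_of_pos_left (by linarith) hq
      linarith
    · have hone : ∀ j < k' + 1, yy q a j = 1 := by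
        intro j hj
        by_contra hne
        have h1 : yy q a j < 1 := lt_of_le_of_ne (yy_le_one j) hne
        have h2 := yy_lt_one_of_le hq ha (show j ≤ k' by omega) h1
        linarith
      rw [gapSeq_fst_eq_of_one _ hone] at hcon
      have h1 : ∑ i ∈ range (k' + 1), x i ≤ ∑ i ∈ range (k' + 1), (1 : ℝ) :=
        sum_le_sum fun i hi => hx1 i (lt_of_lt_of_le (mem_range.1 hi) hk)
      simp at h1 hcon
      linarith

end MldGap
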