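import Pool.Agent.MldGap.Mink

/-!
# The key inequality: a large product gives a multiple with smaller log discrepancy
-/

namespace MldGap

open MeasureTheory Finset Module

set_option linter.unusedSectionVars false

variable {ι : Type*} [Fintype ι] [DecidableEq ι]

/-- the linear map `x ↦ x - (Γ(x)/p) v` -/
noncomputable def Tmap (v : ι → ℝ) (γ : ι → ℤ) (p : ℕ) : (ι → ℝ) →ₗ[ℝ] (ι → ℝ) :=
  Matrix.toLin' (1 + Matrix.replicateCol Unit (fun i => - v i / p) *
    Matrix.replicateRow Unit (fun i => (γ i : ℝ)))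

theorem Tmap_apply (v : ι → ℝ) (γ : ι → ℤ) (p : ℕ) (x : ι → ℝ) (i : ι) :
    Tmap v γ p x i = x i - (∑ j, (γ j : ℝ) * x j) / p * v i := by
  unfold Tmap
  rw [Matrix.toLin'_apply, Matrix.add_mulVec, Matrix.one_mulVec, ← Matrix.mulVec_mulVec]
  simp only [Pi.add_apply, Matrix.mulVec, dotProduct, Matrix.replicateCol_apply,
    Matrix.replicateRow_apply, Finset.univ_unique, Finset.sum_const, Finset.card_singleton,
    one_smul]
  ring

theorem det_Tmap (v : ι → ℝ) (γ : ι → ℤ) (p : ℕ) :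
    LinearMap.det (Tmap v γ p) = 1 - (∑ j, (γ j : ℝ) * v j) / p := by
  unfold Tmap
  rw [LinearMap.det_toLin', Matrix.det_one_add_replicateCol_mul_replicateRow]
  simp only [dotProduct]
  rw [sum_div, sub_eq_add_neg, ← sum_neg_distrib]
  congr 1
  refine sum_congr rfl fun i _ => ?_
  ring

theorem exists_multiple (v : ι → ℝ) (hv0 : ∀ i, 0 < v i) (hv1 : ∀ i, v i ≤ 1) (γ : ι → ℤ)
    {p : ℕ} (hp : 0 < p) (hs : ∑ i, (γ i : ℝ) * v i < p)
    (hvol : (p : ℝ) - ∑ i, (γ i : ℝ) * v i < ∏ i, v i) :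
    ∃ k : ℕ, 2 ≤ k ∧ ∃ y : ι → ℤ, (∀ i, (y i : ℝ) < k * v i) ∧
      ∑ i, γ i * y i = ((k : ℤ) - 1) * p := by
  have hp' : (0 : ℝ) < p := by exact_mod_cast hp
  set Γ : ℝ := ∑ i, (γ i : ℝ) * v i with hΓ
  have hdet : LinearMap.det (Tmap v γ p) = 1 - Γ / p := det_Tmap v γ p
  have hD : 0 < 1 - Γ / p := by
    rw [sub_pos, div_lt_one hp']
    exact hs
  set box : Set (ι → ℝ) := Set.univ.pi fun i => Set.Ioo (- v i) (v i) with hbox
  set s : Set (ι → ℝ) := Tmap v γ p ⁻¹' box with hsdef
  have hconv : Convex ℝ s := by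
    refine Convex.linear_preimage ?_ _
    exact convex_pi fun i _ => convex_Ioo _ _
  have hsymm : ∀ x ∈ s, -x ∈ s := by
    intro x hx i hi
    have h1 := hx i hi
    rw [map_neg, Pi.neg_apply]
    exact ⟨by linarith [h1.2], by linarith [h1.1]⟩
  have hvolbox : volume box = ENNReal.ofReal (∏ i, (2 * v i)) := by
    rw [hbox, Real.volume_pi_Ioo, ENNReal.ofReal_prod_of_nonneg
      (fun i _ => by linarith [hv0 i])]
    refine prod_congr rfl fun i _ => ?_
    congr 1
    ring
  have hvols : ENNReal.ofReal p * 2 ^ Fintype.card ι < volume s := by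
    rw [hsdef, Measure.addHaar_preimage_linearMap _ (by rw [hdet]; exact hD.ne'), hdet, hvolbox,
      abs_of_pos (inv_pos.2 hD), ← ENNReal.ofReal_mul (inv_pos.2 hD).le]
    have h2 : (2 : ENNReal) ^ Fintype.card ι = ENNReal.ofReal (2 ^ Fintype.card ι) := by
      rw [ENNReal.ofReal_pow (by norm_num)]
      norm_num
    rw [h2, ← ENNReal.ofReal_mul hp'.le]
    rw [ENNReal.ofReal_lt_ofReal_iff]
    · rw [prod_mul_distrib, prod_const, card_univ]
      have h3 : (p : ℝ) * (1 - Γ / p) < ∏ i, v i := by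
        rw [mul_sub, mul_one, mul_div_cancel₀ _ hp'.ne']
        exact hvol
      have h4 : (p : ℝ) < (1 - Γ / p)⁻¹ * ∏ i, v i := by
        rw [inv_mul_eq_div, lt_div_iff₀ hD]
        exact h3
      have h5 : (0 : ℝ) < 2 ^ Fintype.card ι := by positivity
      calc (p : ℝ) * 2 ^ Fintype.card ι
          < ((1 - Γ / p)⁻¹ * ∏ i, v i) * 2 ^ Fintype.card ι := mul_lt_mul_of_pos_right h4 h5
        _ = _ := by ring
    · have : 0 < ∏ i, (2 * v i) := prod_pos fun i _ => by linarith [hv0 i]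
      exact mul_pos (inv_pos.2 hD) this
  obtain ⟨z, hz0, hzdvd, hzs⟩ := exists_lattice_point γ hp s hsymm hconv hvols
  -- choose the sign
  obtain ⟨w, hw0, m, hm, hws⟩ : ∃ w : ι → ℤ, w ≠ 0 ∧ ∃ m : ℕ, ∑ i, γ i * w i = m * p ∧
      (fun i => (w i : ℝ)) ∈ s := by
    rcases le_total 0 (∑ i, γ i * z i) with h | h
    · obtain ⟨m, hm⟩ := hzdvd
      have hm0 : 0 ≤ m := by
        rw [hm] at h
        have : (0 : ℤ) < p := by exact_mod_cast hp
        exact nonneg_of_mul_nonneg_right h this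
      lift m to ℕ using hm0
      exact ⟨z, hz0, m, by rw [hm, mul_comm], hzs⟩
    · obtain ⟨m, hm⟩ := hzdvd
      have hm0 : m ≤ 0 := by
        rw [hm] at h
        have : (0 : ℤ) < p := by exact_mod_cast hp
        by_contra hcon
        push Not at hcon
        have := mul_pos this hcon
        linarith
      refine ⟨-z, neg_ne_zero.2 hz0, (-m).toNat, ?_, ?_⟩
      · rw [Int.toNat_of_nonneg (by linarith)]
        simp only [Pi.neg_apply, mul_neg, sum_neg_distrib, hm]
        ring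
      · have h1 : (fun i => (((-z) i : ℤ) : ℝ)) = - (fun i => (z i : ℝ)) := by
          ext i; simp
        rw [h1]
        exact hsymm _ hzs
  have hwi : ∀ i, - v i < (w i : ℝ) - m * v i ∧ (w i : ℝ) - m * v i < v i := by
    intro i
    have h1 := hws i (Set.mem_univ i)
    rw [Tmap_apply] at h1
    have h2 : (∑ j, (γ j : ℝ) * (w j : ℝ)) = m * p := by
      have : ((∑ i, γ i * w i : ℤ) : ℝ) = ((m * p : ℤ) : ℝ) := by rw [hm]
      push_cast at this
      exact this
    simp only [h2, mul_div_assoc, div_self hp'.ne', mul_one] at h1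
    exact h1
  refine ⟨m + 1, ?_, w, fun i => ?_, ?_⟩
  · rcases Nat.eq_zero_or_pos m with hm0 | hm0
    · exfalso
      apply hw0
      ext i
      have h1 := hwi i
      rw [hm0] at h1
      simp only [Nat.cast_zero, zero_mul, sub_zero] at h1
      have h2 := hv1 i
      have h3 : (-1 : ℝ) < (w i : ℝ) := by linarith
      have h4 : (w i : ℝ) < 1 := by linarith
      have h5 : (-1 : ℤ) < w i := by exact_mod_cast h3
      have h6 : w i < 1 := by exact_mod_cast h4
      simp only [Pi.zero_apply]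
      omega
    · omega
  · have h1 := (hwi i).2
    push_cast
    linarith
  · rw [hm]
    push_cast
    ring

end MldGap
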