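import Pool.Agent.MldGap.Seq
import Pool.Agent.MldGap.Body

/-!
# The core inequality
-/

namespace MldGap

open Finset

variable {ι : Type*} [Fintype ι] [DecidableEq ι]

theorem subset_ineq (x : ι → ℝ) (hx0 : ∀ i, 0 < x i) (hx1 : ∀ i, x i ≤ 1) (γ : ι → ℤ)
    (hγ0 : ∀ i, 0 ≤ γ i) {p : ℕ} (hp : 0 < p) (hs : ∑ i, (γ i : ℝ) * x i < p)
    (H : ∀ k : ℕ, 2 ≤ k → ∀ y : ι → ℤ, (∀ i, (y i : ℝ) < k * x i) →
      ∑ i, γ i * y i = ((k : ℤ) - 1) * p → False) (K : Finset ι) :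
    ∏ i ∈ K, x i ≤ (p : ℝ) - ∑ i ∈ K, (γ i : ℝ) * x i := by
  by_contra hcon
  push Not at hcon
  have h1 : ∑ i : K, ((γ i : ℤ) : ℝ) * x i = ∑ i ∈ K, (γ i : ℝ) * x i :=
    Finset.sum_coe_sort K (fun i => (γ i : ℝ) * x i)
  have h2 : ∏ i : K, x i = ∏ i ∈ K, x i := Finset.prod_coe_sort K x
  have hle : ∑ i ∈ K, (γ i : ℝ) * x i ≤ ∑ i, (γ i : ℝ) * x i := by
    refine sum_le_sum_of_subset_of_nonneg (subset_univ _) fun i _ _ => ?_
    have : (0 : ℝ) ≤ γ i := by exact_mod_cast hγ0 i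
    exact mul_nonneg this (hx0 i).le
  obtain ⟨k, hk, y, hy, hsum⟩ := exists_multiple (ι := K) (fun i => x i) (fun i => hx0 i)
    (fun i => hx1 i) (fun i => γ i) hp (by rw [h1]; linarith) (by rw [h1, h2]; linarith)
  have hk0 : (0 : ℝ) < k := by
    have : (2 : ℝ) ≤ k := by exact_mod_cast hk
    linarith
  refine H k hk (fun i => if h : i ∈ K then y ⟨i, h⟩ else 0) (fun i => ?_) ?_
  · by_cases h : i ∈ K
    · simp only [h, dite_true]
      exact hy ⟨i, h⟩
    · simp only [h, dite_false, Int.cast_zero]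
      exact mul_pos hk0 (hx0 i)
  · rw [← hsum, ← Finset.sum_subset (Finset.subset_univ K)]
    · rw [← Finset.sum_coe_sort K]
      refine sum_congr rfl fun i _ => ?_
      simp
    · intro i _ hi
      simp [hi]

theorem core (x : ι → ℝ) (hx0 : ∀ i, 0 < x i) (hx1 : ∀ i, x i ≤ 1) (γ : ι → ℤ)
    {p q : ℕ} (hp : 0 < p) (hq : 0 < q) (hγ0 : ∀ i, 0 ≤ γ i) (hγ1 : ∀ i, γ i ≤ q)
    (hs : ∑ i, (γ i : ℝ) * x i < p)
    (H : ∀ k : ℕ, 2 ≤ k → ∀ y : ι → ℤ, (∀ i, (y i : ℝ) < k * x i) →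
      ∑ i, γ i * y i = ((k : ℤ) - 1) * p → False) :
    (∑ i, (γ i : ℝ) * x i) / q ≤ (gapSeq q ((p : ℝ) / q) (Fintype.card ι)).1 := by
  have hq' : (0 : ℝ) < q := by exact_mod_cast hq
  have hp' : (0 : ℝ) < p := by exact_mod_cast hp
  set u : ι → ℝ := fun i => (γ i : ℝ) / q * x i with hu
  have hc0 : ∀ i, 0 ≤ (γ i : ℝ) / q := fun i => by
    have : (0 : ℝ) ≤ γ i := by exact_mod_cast hγ0 i
    positivity
  have hc1 : ∀ i, (γ i : ℝ) / q ≤ 1 := fun i => by
    rw [div_le_one hq']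
    exact_mod_cast hγ1 i
  have hu0 : ∀ i, 0 ≤ u i := fun i => mul_nonneg (hc0 i) (hx0 i).le
  have hu1 : ∀ i, u i ≤ 1 := fun i => by
    calc u i ≤ 1 * 1 := mul_le_mul (hc1 i) (hx1 i) (hx0 i).le zero_le_one
      _ = 1 := one_mul 1
  have hK : ∀ K : Finset ι, ∏ i ∈ K, u i ≤ q * ((p : ℝ) / q - ∑ i ∈ K, u i) := by
    intro K
    have h1 := subset_ineq x hx0 hx1 γ hγ0 hp hs H K
    have h2 : ∏ i ∈ K, u i ≤ ∏ i ∈ K, x i :=
      prod_le_prod (fun i _ => hu0 i) fun i _ => by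
        calc u i ≤ 1 * x i := mul_le_mul_of_nonneg_right (hc1 i) (hx0 i).le
          _ = x i := one_mul _
    have h3 : q * ((p : ℝ) / q - ∑ i ∈ K, u i) = (p : ℝ) - ∑ i ∈ K, (γ i : ℝ) * x i := by
      rw [mul_sub, mul_div_cancel₀ _ hq'.ne', mul_sum]
      congr 1
      refine sum_congr rfl fun i _ => ?_
      simp only [hu]
      field_simp
    rw [h3]
    linarith
  -- sorting
  set n := Fintype.card ι with hn
  let e : Fin n ≃ ι := (Fintype.equivFin ι).symm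
  let σ : Equiv.Perm (Fin n) := Tuple.sort (fun i => - u (e i))
  have hmono : Monotone ((fun i => - u (e i)) ∘ σ) := Tuple.monotone_sort _
  let f : Fin n → ι := fun i => e (σ i)
  have hf : Function.Injective f := e.injective.comp σ.injective
  let w : ℕ → ℝ := fun i => if h : i < n then u (f ⟨i, h⟩) else 0
  have hw : ∀ i (h : i < n), w i = u (f ⟨i, h⟩) := fun i h => by simp [w, h]
  have hprod : ∀ k ≤ n, ∏ i ∈ range k, w i ≤ q * ((p : ℝ) / q - ∑ i ∈ range k, w i) := by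
    intro k hk
    let K : Finset ι := (univ : Finset (Fin k)).map
      ⟨fun i => f (Fin.castLE hk i), hf.comp (Fin.castLE_injective hk)⟩
    have h1 : ∏ i ∈ range k, w i = ∏ i ∈ K, u i := by
      rw [Finset.prod_range, prod_map]
      refine prod_congr rfl fun i _ => ?_
      rw [hw i (lt_of_lt_of_le i.2 hk)]
      rfl
    have h2 : ∑ i ∈ range k, w i = ∑ i ∈ K, u i := by
      rw [Finset.sum_range, sum_map]
      refine sum_congr rfl fun i _ => ?_
      rw [hw i (lt_of_lt_of_le i.2 hk)]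
      rfl
    rw [h1, h2]
    exact hK K
  have hfinal := sum_le_gapSeq (q := q) (a := (p : ℝ) / q) hq' (by positivity) w n
    (fun i hi => by rw [hw i hi]; exact hu1 _)
    (fun i hi => by
      rw [hw i (by omega), hw (i + 1) hi]
      have h1 : ((fun i => - u (e i)) ∘ σ) ⟨i, by omega⟩ ≤
          ((fun i => - u (e i)) ∘ σ) ⟨i + 1, hi⟩ := hmono (by simp [Fin.le_def])
      simp only [Function.comp] at h1
      simp only [f]
      linarith)
    hprod n le_rfl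
  have hsum : ∑ i ∈ range n, w i = (∑ i, (γ i : ℝ) * x i) / q := by
    rw [Finset.sum_range, sum_div]
    have h1 : ∀ i : Fin n, w i = u (e (σ i)) := fun i => hw i i.2
    simp_rw [h1]
    have h2 := Equiv.sum_comp (σ.trans e) u
    simp only [Equiv.trans_apply] at h2
    rw [h2]
    refine sum_congr rfl fun i _ => ?_
    simp only [hu]
    ring
  rw [← hsum]
  exact hfinal

end MldGap
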