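import Mathlib

/-!
# Minkowski's theorem for the sublattice `p ∣ ∑ γ i z i` of `ℤ^ι`
-/

namespace MldGap

open MeasureTheory Finset Module

set_option linter.unusedSectionVars false

variable {ι : Type*} [Fintype ι] [DecidableEq ι]

/-- the standard embedding `ℤ^ι → ℝ^ι` -/
def jmap (ι : Type*) : (ι → ℤ) →ₗ[ℤ] (ι → ℝ) where
  toFun z i := (z i : ℝ)
  map_add' x y := by ext i; simp
  map_smul' c x := by ext i; simp

theorem jmap_injective (ι : Type*) : Function.Injective (jmap ι) := by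
  intro x y h
  ext i
  have := congrFun h i
  simpa [jmap] using this

/-- the residue of `∑ γ i z i` modulo `p` -/
def phi (γ : ι → ℤ) (p : ℕ) : (ι → ℤ) →+ ZMod p where
  toFun z := ((∑ i, γ i * z i : ℤ) : ZMod p)
  map_zero' := by simp
  map_add' x y := by simp [mul_add, sum_add_distrib]

/-- the sublattice -/
def L1 (γ : ι → ℤ) (p : ℕ) : Submodule ℤ (ι → ℝ) :=
  (AddSubgroup.toIntSubmodule (phi γ p).ker).map (jmap ι)

theorem mem_L1 (γ : ι → ℤ) (p : ℕ) (x : ι → ℝ) :
    x ∈ L1 γ p ↔ ∃ z : ι → ℤ, (p : ℤ) ∣ ∑ i, γ i * z i ∧ (fun i => (z i : ℝ)) = x := by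
  unfold L1
  simp only [Submodule.mem_map]
  constructor
  · rintro ⟨z, hz, rfl⟩
    refine ⟨z, ?_, rfl⟩
    have : (phi γ p) z = 0 := hz
    exact (ZMod.intCast_zmod_eq_zero_iff_dvd _ _).1 this
  · rintro ⟨z, hz, rfl⟩
    refine ⟨z, ?_, rfl⟩
    exact (ZMod.intCast_zmod_eq_zero_iff_dvd _ _).2 hz

theorem L1_le (γ : ι → ℤ) (p : ℕ) :
    L1 γ p ≤ Submodule.span ℤ (Set.range (Pi.basisFun ℝ ι)) := by
  intro x hx
  obtain ⟨z, _, rfl⟩ := (mem_L1 γ p x).1 hx
  have h : (fun i => (z i : ℝ)) = ∑ i, z i • (Pi.basisFun ℝ ι i) := by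
    ext i
    simp [Finset.sum_apply, Pi.single_apply]
  rw [h]
  exact Submodule.sum_mem _ fun i _ =>
    Submodule.smul_mem _ _ (Submodule.subset_span ⟨i, rfl⟩)

theorem span_std : Submodule.span ℤ (Set.range (Pi.basisFun ℝ ι)) =
    (⊤ : Submodule ℤ (ι → ℤ)).map (jmap ι) := by
  apply le_antisymm
  · rw [Submodule.span_le]
    rintro _ ⟨i, rfl⟩
    refine ⟨Pi.single i 1, trivial, ?_⟩
    ext j
    simp [jmap, Pi.single_apply]
  · rintro _ ⟨z, _, rfl⟩
    have h : jmap ι z = ∑ i, z i • (Pi.basisFun ℝ ι i) := by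
      ext i
      simp [jmap, Finset.sum_apply, Pi.single_apply]
    rw [h]
    exact Submodule.sum_mem _ fun i _ =>
      Submodule.smul_mem _ _ (Submodule.subset_span ⟨i, rfl⟩)

instance (γ : ι → ℤ) (p : ℕ) : DiscreteTopology (L1 γ p) := by
  have h : DiscreteTopology (Submodule.span ℤ (Set.range (Pi.basisFun ℝ ι)) :
    Submodule ℤ (ι → ℝ)) := inferInstance
  exact DiscreteTopology.of_subset (s := ((Submodule.span ℤ (Set.range (Pi.basisFun ℝ ι)) :
    Submodule ℤ (ι → ℝ)) : Set (ι → ℝ))) h (L1_le γ p)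

theorem isZLattice_L1 (γ : ι → ℤ) {p : ℕ} (hp : 0 < p) : IsZLattice ℝ (L1 γ p) where
  span_top := by
    rw [eq_top_iff, ← (Pi.basisFun ℝ ι).span_eq, Submodule.span_le]
    rintro _ ⟨i, rfl⟩
    have h1 : (fun j => ((Pi.single i (p : ℤ) : ι → ℤ) j : ℝ)) ∈ L1 γ p := by
      rw [mem_L1]
      refine ⟨Pi.single i (p : ℤ), ?_, rfl⟩
      refine Finset.dvd_sum fun j _ => ?_
      by_cases hj : j = i
      · subst hj; simp
      · simp [Pi.single_apply, hj]
    have h2 : (Pi.basisFun ℝ ι i : ι → ℝ) =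
        ((p : ℝ)⁻¹) • (fun j => ((Pi.single i (p : ℤ) : ι → ℤ) j : ℝ)) := by
      have hp' : (p : ℝ) ≠ 0 := by exact_mod_cast hp.ne'
      ext j
      by_cases hj : j = i
      · subst hj; simp [hp']
      · simp [Pi.single_apply, hj]
    rw [h2]
    exact Submodule.smul_mem _ _ (Submodule.subset_span h1)

theorem covolume_std : ZLattice.covolume (Submodule.span ℤ (Set.range (Pi.basisFun ℝ ι)) :
    Submodule ℤ (ι → ℝ)) = 1 := by
  rw [ZLattice.covolume_eq_measure_fundamentalDomain _ volume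
    (ZSpan.isAddFundamentalDomain (Pi.basisFun ℝ ι) volume), ZSpan.volume_real_fundamentalDomain]
  have : Matrix.of ⇑(Pi.basisFun ℝ ι) = 1 := by
    ext i j
    simp [Matrix.one_apply, Pi.single_apply, eq_comm]
  rw [this]
  simp

theorem covolume_L1_le (γ : ι → ℤ) {p : ℕ} (hp : 0 < p) :
    ZLattice.covolume (L1 γ p) ≤ p := by
  have := isZLattice_L1 γ hp
  have : NeZero p := ⟨hp.ne'⟩
  have h := ZLattice.covolume_div_covolume_eq_relIndex (L1 γ p)
    (Submodule.span ℤ (Set.range (Pi.basisFun ℝ ι))) (L1_le γ p)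
  rw [covolume_std, div_one] at h
  rw [h]
  have h1 : (L1 γ p).toAddSubgroup = (phi γ p).ker.map (jmap ι).toAddMonoidHom := by
    ext x
    simp only [Submodule.mem_toAddSubgroup, L1, Submodule.mem_map, AddSubgroup.mem_map]
    rfl
  have h2 : (Submodule.span ℤ (Set.range (Pi.basisFun ℝ ι)) :
      Submodule ℤ (ι → ℝ)).toAddSubgroup = (⊤ : AddSubgroup (ι → ℤ)).map
        (jmap ι).toAddMonoidHom := by
    rw [span_std]
    ext x
    simp only [Submodule.mem_toAddSubgroup, Submodule.mem_map, AddSubgroup.mem_map]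
    simp
  rw [h1, h2, AddSubgroup.relIndex_map_map_of_injective _ _ (jmap_injective ι),
    AddSubgroup.relIndex_top_right]
  have h3 : (phi γ p).ker.index ≤ p := by
    rw [AddSubgroup.index_ker]
    calc Nat.card (phi γ p).range ≤ Nat.card (ZMod p) :=
          Nat.card_le_card_of_injective _ Subtype.val_injective
      _ = p := Nat.card_zmod p
  exact_mod_cast h3

theorem exists_lattice_point (γ : ι → ℤ) {p : ℕ} (hp : 0 < p) (s : Set (ι → ℝ))
    (hsymm : ∀ x ∈ s, -x ∈ s) (hconv : Convex ℝ s)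
    (hvol : ENNReal.ofReal p * 2 ^ Fintype.card ι < volume s) :
    ∃ z : ι → ℤ, z ≠ 0 ∧ (p : ℤ) ∣ ∑ i, γ i * z i ∧ (fun i => (z i : ℝ)) ∈ s := by
  have := isZLattice_L1 γ hp
  let b := IsZLattice.basis (L1 γ p)
  have hfund := ZLattice.isAddFundamentalDomain b (volume : Measure (ι → ℝ))
  have hcov := ZLattice.covolume_eq_measure_fundamentalDomain (L1 γ p) volume hfund
  have hfin : volume (ZSpan.fundamentalDomain (b.ofZLatticeBasis ℝ)) ≠ ⊤ :=
    (Bornology.IsBounded.measure_lt_top (ZSpan.fundamentalDomain_isBounded _)).ne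
  have hF : volume (ZSpan.fundamentalDomain (b.ofZLatticeBasis ℝ)) ≤ ENNReal.ofReal p := by
    rw [← ENNReal.ofReal_toReal hfin]
    apply ENNReal.ofReal_le_ofReal
    have := covolume_L1_le γ hp
    rw [hcov] at this
    exact this
  have hlt : volume (ZSpan.fundamentalDomain (b.ofZLatticeBasis ℝ)) *
      2 ^ finrank ℝ (ι → ℝ) < volume s := by
    rw [Module.finrank_fintype_fun_eq_card]
    exact lt_of_le_of_lt (mul_le_mul_left hF _) hvol
  have hcount : Countable (L1 γ p).toAddSubgroup := by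
    have h1 : ((L1 γ p : Submodule ℤ (ι → ℝ)) : Set (ι → ℝ)).Countable := by
      refine (Set.countable_range (jmap ι)).mono ?_
      intro x hx
      obtain ⟨z, _, rfl⟩ := (mem_L1 γ p x).1 hx
      exact ⟨z, rfl⟩
    exact h1.to_subtype
  obtain ⟨⟨x, hxL⟩, hx0, hxs⟩ :=
    exists_ne_zero_mem_lattice_of_measure_mul_two_pow_lt_measure
      (L := (L1 γ p).toAddSubgroup) hfund hsymm hconv hlt
  obtain ⟨z, hz, rfl⟩ := (mem_L1 γ p x).1 hxL
  refine ⟨z, ?_, hz, hxs⟩
  rintro rfl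
  apply hx0
  ext i
  simp

end MldGap
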